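import Mathlib

/-!
# Asymptotics for the windows without tuples
-/

set_option autoImplicit false

open Filter Set
open scoped Topology

namespace Pool.Agent.N730.KT

/-- the lengths of the blocks -/
def Mb (k h i : ℕ) : ℕ := (Nat.sqrt i + 1) * i ^ (k - 1) + h

/-- `log (2 ^ i)` -/
noncomputable def yy (i : ℕ) : ℝ := (i : ℝ) * Real.log 2

/-- the number of the blocks -/
noncomputable def nb (κ : ℝ) (k h i : ℕ) : ℕ := ⌈κ * yy (i + 1) ^ (k + 1) / Mb k h i⌉₊

/-- the bound for the conditional probabilities -/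
noncomputable def uu (a : ℝ) (i : ℕ) : ℝ := a / yy i

/-- the probability that a block is bad -/
noncomputable def th (a q : ℝ) (ν : ℕ) (k h i : ℕ) : ℝ :=
  (ν * (Mb k h i / q + 1)) * uu a i ^ k + h * uu a i

lemma log2_pos : 0 < Real.log 2 := Real.log_pos (by norm_num)

lemma yy_tend : Tendsto yy atTop atTop := tendsto_natCast_atTop_atTop.atTop_mul_const log2_pos

lemma sqrt_tend : Tendsto (fun i : ℕ => (Nat.sqrt i : ℝ)) atTop atTop :=
  tendsto_natCast_atTop_atTop.comp (tendsto_atTop_atTop.2 fun b => ⟨b * b, fun _ hi => Nat.le_sqrt.2 hi⟩)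

lemma sqrt_div : Tendsto (fun i : ℕ => ((Nat.sqrt i : ℝ) + 1) / i) atTop (𝓝 0) := by
  have h1 : Tendsto (fun i : ℕ => 2 / (Nat.sqrt i : ℝ)) atTop (𝓝 0) :=
    tendsto_const_nhds.div_atTop sqrt_tend
  refine squeeze_zero' (Eventually.of_forall fun i => by positivity) ?_ h1
  filter_upwards [eventually_ge_atTop 1] with i hi
  have hs : 1 ≤ Nat.sqrt i := Nat.le_sqrt.2 (by omega)
  have hs' : (1 : ℝ) ≤ Nat.sqrt i := by exact_mod_cast hs
  have h2 : (Nat.sqrt i : ℝ) * Nat.sqrt i ≤ i := by exact_mod_cast Nat.sqrt_le i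
  have hi' : (0 : ℝ) < i := by exact_mod_cast hi
  rw [div_le_div_iff₀ hi' (by linarith)]
  nlinarith

lemma Mb_pos (k h i : ℕ) (hi : 1 ≤ i) : 0 < Mb k h i := by
  unfold Mb
  have : 0 < (Nat.sqrt i + 1) * i ^ (k - 1) := by positivity
  omega

lemma Mb_low (k h i : ℕ) : ((Nat.sqrt i : ℝ) + 1) * (i : ℝ) ^ (k - 1) ≤ Mb k h i := by
  unfold Mb
  push_cast
  linarith [(Nat.cast_nonneg h : (0 : ℝ) ≤ h)]

lemma inv_Mb (k h : ℕ) : Tendsto (fun i : ℕ => 1 / (Mb k h i : ℝ)) atTop (𝓝 0) := by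
  have h1 : Tendsto (fun i : ℕ => 1 / (Nat.sqrt i : ℝ)) atTop (𝓝 0) :=
    tendsto_const_nhds.div_atTop sqrt_tend
  refine squeeze_zero' (Eventually.of_forall fun i => by positivity) ?_ h1
  filter_upwards [eventually_ge_atTop 1] with i hi
  have hs : 1 ≤ Nat.sqrt i := Nat.le_sqrt.2 (by omega)
  have hs' : (1 : ℝ) ≤ Nat.sqrt i := by exact_mod_cast hs
  have hi' : (1 : ℝ) ≤ (i : ℝ) ^ (k - 1) := one_le_pow₀ (by exact_mod_cast hi)
  refine one_div_le_one_div_of_le (by linarith) ?_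
  have := Mb_low k h i
  nlinarith

lemma pow_Mb (k h : ℕ) : Tendsto (fun i : ℕ => yy i ^ (k - 1) / (Mb k h i : ℝ)) atTop (𝓝 0) := by
  have h1 : Tendsto (fun i : ℕ => Real.log 2 ^ (k - 1) / (Nat.sqrt i : ℝ)) atTop (𝓝 0) :=
    tendsto_const_nhds.div_atTop sqrt_tend
  refine squeeze_zero' (Eventually.of_forall fun i => ?_) ?_ h1
  · have : 0 ≤ yy i := mul_nonneg (Nat.cast_nonneg i) log2_pos.le
    positivity
  filter_upwards [eventually_ge_atTop 1] with i hi
  have hs : 1 ≤ Nat.sqrt i := Nat.le_sqrt.2 (by omega)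
  have hs' : (1 : ℝ) ≤ Nat.sqrt i := by exact_mod_cast hs
  have hi' : (0 : ℝ) < (i : ℝ) ^ (k - 1) := by
    have : (0 : ℝ) < i := by exact_mod_cast hi
    positivity
  have hM : (0 : ℝ) < Mb k h i := by exact_mod_cast Mb_pos k h i hi
  have h2 := Mb_low k h i
  have hl : 0 < Real.log 2 ^ (k - 1) := pow_pos log2_pos _
  unfold yy
  rw [mul_pow, div_le_div_iff₀ hM (by linarith)]
  calc (i : ℝ) ^ (k - 1) * Real.log 2 ^ (k - 1) * Nat.sqrt i
      = Real.log 2 ^ (k - 1) * ((Nat.sqrt i : ℝ) * (i : ℝ) ^ (k - 1)) := by ring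
    _ ≤ Real.log 2 ^ (k - 1) * Mb k h i := by
        refine mul_le_mul_of_nonneg_left (le_trans ?_ h2) hl.le
        nlinarith

lemma Mb_div (k h : ℕ) (hk : 1 ≤ k) : Tendsto (fun i : ℕ => (Mb k h i : ℝ) / yy i ^ k) atTop (𝓝 0) := by
  have h1 : Tendsto (fun i : ℕ => (((Nat.sqrt i : ℝ) + 1) / i + h * (1 / (i : ℝ)) ^ k) *
      (1 / Real.log 2 ^ k)) atTop (𝓝 ((0 + h * 0 ^ k) * (1 / Real.log 2 ^ k))) := by
    refine (sqrt_div.add ((?_ : Tendsto (fun i : ℕ => (1 / (i : ℝ)) ^ k) atTop (𝓝 (0 ^ k))).const_mul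
      (h : ℝ))).mul_const _
    exact tendsto_one_div_atTop_nhds_zero_nat.pow k
  rw [zero_pow (by omega), mul_zero, add_zero, zero_mul] at h1
  refine h1.congr' ?_
  filter_upwards [eventually_ge_atTop 1] with i hi
  have hi' : (0 : ℝ) < i := by exact_mod_cast hi
  have hl := log2_pos
  obtain ⟨j, rfl⟩ : ∃ j, k = j + 1 := ⟨k - 1, by omega⟩
  unfold Mb yy
  rw [Nat.add_sub_cancel]
  push_cast
  rw [mul_pow, one_div_pow]
  field_simp
  ring

lemma Mb_div' (k h : ℕ) (hk : 1 ≤ k) :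
    Tendsto (fun i : ℕ => (Mb k h i : ℝ) / yy i ^ (k + 1)) atTop (𝓝 0) := by
  have h1 := (Mb_div k h hk).mul (tendsto_inv_atTop_zero.comp yy_tend)
  rw [zero_mul] at h1
  refine h1.congr' ?_
  filter_upwards [yy_tend.eventually_gt_atTop 0] with i hi
  simp only [Function.comp]
  rw [pow_succ]
  field_simp

lemma yy_succ (k : ℕ) : Tendsto (fun i : ℕ => yy (i + 1) ^ k / yy i ^ k) atTop (𝓝 1) := by
  have h1 : Tendsto (fun i : ℕ => (1 + 1 / (i : ℝ)) ^ k) atTop (𝓝 ((1 + 0) ^ k)) :=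
    (tendsto_const_nhds.add tendsto_one_div_atTop_nhds_zero_nat).pow k
  rw [add_zero, one_pow] at h1
  refine h1.congr' ?_
  filter_upwards [eventually_ge_atTop 1] with i hi
  have hi' : (0 : ℝ) < i := by exact_mod_cast hi
  have hl := log2_pos
  rw [← div_pow]
  congr 1
  unfold yy
  push_cast
  field_simp

/-- the length of the windows -/
lemma H_div {κ : ℝ} (hκ : 0 < κ) (k h : ℕ) (hk : 1 ≤ k) :
    Tendsto (fun i : ℕ => ((Mb k h i * nb κ k h i : ℕ) : ℝ) / yy i ^ (k + 1)) atTop (𝓝 κ) := by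
  have h1 : Tendsto (fun i : ℕ => κ * (yy (i + 1) ^ (k + 1) / yy i ^ (k + 1))) atTop (𝓝 (κ * 1)) :=
    (yy_succ (k + 1)).const_mul κ
  have h2 := h1.add (Mb_div' k h hk)
  rw [mul_one] at h1 h2
  rw [add_zero] at h2
  refine tendsto_of_tendsto_of_tendsto_of_le_of_le' h1 h2 ?_ ?_
  · filter_upwards [yy_tend.eventually_gt_atTop 0, eventually_ge_atTop 1] with i hi hi1
    have hM : (0 : ℝ) < Mb k h i := by exact_mod_cast Mb_pos k h i hi1
    rw [← mul_div_assoc]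
    refine div_le_div_of_nonneg_right ?_ (by positivity)
    push_cast
    have h3 : κ * yy (i + 1) ^ (k + 1) / Mb k h i ≤ nb κ k h i := Nat.le_ceil _
    rw [div_le_iff₀ hM] at h3
    linarith
  · filter_upwards [yy_tend.eventually_gt_atTop 0, eventually_ge_atTop 1] with i hi hi1
    have hM : (0 : ℝ) < Mb k h i := by exact_mod_cast Mb_pos k h i hi1
    rw [← mul_div_assoc, ← add_div]
    refine div_le_div_of_nonneg_right ?_ (by positivity)
    push_cast
    have hy : 0 ≤ yy (i + 1) := mul_nonneg (Nat.cast_nonneg _) log2_pos.le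
    have h3 : (nb κ k h i : ℝ) < κ * yy (i + 1) ^ (k + 1) / Mb k h i + 1 :=
      Nat.ceil_lt_add_one (by positivity)
    have h4 : (Mb k h i : ℝ) * nb κ k h i ≤ Mb k h i * (κ * yy (i + 1) ^ (k + 1) / Mb k h i + 1) :=
      mul_le_mul_of_nonneg_left h3.le hM.le
    have h5 : (Mb k h i : ℝ) * (κ * yy (i + 1) ^ (k + 1) / Mb k h i + 1) =
        κ * yy (i + 1) ^ (k + 1) + Mb k h i := by field_simp
    linarith

lemma th_div {a q : ℝ} (hq : 0 < q) (ν k h : ℕ) (hk : 1 ≤ k) :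
    Tendsto (fun i : ℕ => th a q ν k h i / Mb k h i * yy i ^ k) atTop (𝓝 (ν / q * a ^ k)) := by
  have h1 : Tendsto (fun i : ℕ => ν * (1 / q + 1 / (Mb k h i : ℝ)) * a ^ k +
      h * a * (yy i ^ (k - 1) / (Mb k h i : ℝ))) atTop
      (𝓝 (ν * (1 / q + 0) * a ^ k + h * a * 0)) :=
    (((tendsto_const_nhds.add (inv_Mb k h)).const_mul (ν : ℝ)).mul_const (a ^ k)).add
      ((pow_Mb k h).const_mul _)
  have e : (ν : ℝ) * (1 / q + 0) * a ^ k + h * a * 0 = ν / q * a ^ k := by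
    rw [add_zero, mul_zero, add_zero]
    ring
  rw [e] at h1
  refine h1.congr' ?_
  filter_upwards [yy_tend.eventually_gt_atTop 0, eventually_ge_atTop 1] with i hi hi1
  have hM : (0 : ℝ) < Mb k h i := by exact_mod_cast Mb_pos k h i hi1
  obtain ⟨j, rfl⟩ : ∃ j, k = j + 1 := ⟨k - 1, by omega⟩
  unfold th uu
  rw [Nat.add_sub_cancel, div_pow]
  field_simp
  ring

lemma th_zero {a q : ℝ} (hq : 0 < q) (ν k h : ℕ) (hk : 1 ≤ k) :
    Tendsto (fun i : ℕ => th a q ν k h i) atTop (𝓝 0) := by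
  have h1 := (th_div (a := a) hq ν k h hk).mul (Mb_div k h hk)
  rw [mul_zero] at h1
  refine h1.congr' ?_
  filter_upwards [yy_tend.eventually_gt_atTop 0, eventually_ge_atTop 1] with i hi hi1
  have hM : (0 : ℝ) < Mb k h i := by exact_mod_cast Mb_pos k h i hi1
  field_simp

lemma nbth {a q κ : ℝ} (hq : 0 < q) (hκ : 0 < κ) (ν k h : ℕ) (hk : 1 ≤ k) :
    Tendsto (fun i : ℕ => nb κ k h i * (th a q ν k h i / (1 - th a q ν k h i)) / yy i) atTop
      (𝓝 (κ * (ν / q * a ^ k))) := by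
  have h1 := (H_div hκ k h hk).mul (th_div (a := a) hq ν k h hk)
  have h0 := th_zero (a := a) hq ν k h hk
  have h2 : Tendsto (fun i : ℕ => 1 / (1 - th a q ν k h i)) atTop (𝓝 (1 / (1 - 0))) :=
    tendsto_const_nhds.div (tendsto_const_nhds.sub h0) (by norm_num)
  rw [sub_zero, div_one] at h2
  have h3 := h1.mul h2
  rw [mul_one] at h3
  refine h3.congr' ?_
  filter_upwards [yy_tend.eventually_gt_atTop 0, eventually_ge_atTop 1,
    h0.eventually (gt_mem_nhds one_pos)] with i hi hi1 hi2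
  have hM : (0 : ℝ) < Mb k h i := by exact_mod_cast Mb_pos k h i hi1
  have h4 : (1 : ℝ) - th a q ν k h i ≠ 0 := by linarith
  push_cast
  rw [pow_succ]
  field_simp

/-- **the number of the windows is large** -/
theorem summ {a q κ : ℝ} (hq : 0 < q) (hκ : 0 < κ) (ν k h : ℕ) (hk : 1 ≤ k)
    (hlt : κ * (ν / q * a ^ k) < 1) :
    Summable fun i : ℕ => ((1 : ℕ) : ℝ) * Real.exp (-(((2 ^ i / (Mb k h i * nb κ k h i) : ℕ) : ℝ) *
      (1 - th a q ν k h i) ^ nb κ k h i)) := by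
  obtain ⟨ρ, hρ1, hρ2⟩ := exists_between hlt
  obtain ⟨σ, hσ0, hσ1, hσρ⟩ : ∃ σ : ℝ, 0 < σ ∧ σ < 1 ∧ ρ ≤ σ :=
    ⟨max ρ (1 / 2), lt_max_of_lt_right (by norm_num), max_lt hρ2 (by norm_num), le_max_left _ _⟩
  have h0 := th_zero (a := a) hq ν k h hk
  have hH := H_div hκ k h hk
  have hgrow : Tendsto (fun i : ℕ => yy i ^ (k + 2) * Real.exp (-((1 - σ) * yy i))) atTop (𝓝 0) := by
    have h1 := (Real.tendsto_pow_mul_exp_neg_atTop_nhds_zero (k + 2)).comp
      (yy_tend.const_mul_atTop (show 0 < 1 - σ by linarith))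
    have h2 := h1.const_mul (((1 - σ) ^ (k + 2))⁻¹)
    rw [mul_zero] at h2
    refine h2.congr fun i => ?_
    simp only [Function.comp]
    have : (1 - σ) ^ (k + 2) ≠ 0 := pow_ne_zero _ (by linarith)
    rw [mul_pow]
    field_simp
  have hsum : Summable fun i : ℕ => Real.exp (-(i : ℝ)) * Real.exp 1 :=
    (Real.summable_exp_neg_nat).mul_right _
  refine Summable.of_norm_bounded_eventually_nat hsum ?_
  set δ : ℝ := Real.log 2 / (2 * (κ + 1)) with hδ
  have hδ0 : 0 < δ := div_pos log2_pos (by linarith)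
  filter_upwards [(nbth (a := a) hq hκ ν k h hk).eventually (gt_mem_nhds (hρ1.trans_le hσρ)),
    h0.eventually (gt_mem_nhds (show (0 : ℝ) < 1 / 2 by norm_num)),
    hH.eventually (gt_mem_nhds (show κ < κ + 1 by linarith)),
    hH.eventually (lt_mem_nhds hκ), yy_tend.eventually_gt_atTop 1,
    hgrow.eventually (gt_mem_nhds hδ0), eventually_ge_atTop 1] with i g1 g2 g3 g4 g5 g6 g7
  have hy : 0 < yy i := by linarith
  set θ := th a q ν k h i with hθ
  set n := nb κ k h i with hn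
  set H := Mb k h i * n with hHdef
  have hHpos : (0 : ℝ) < (H : ℕ) := by
    by_contra hcon
    have h1 : ((H : ℕ) : ℝ) = 0 := le_antisymm (not_lt.1 hcon) (Nat.cast_nonneg _)
    rw [h1, zero_div] at g4
    exact lt_irrefl _ g4
  have hHpos' : 0 < H := by exact_mod_cast hHpos
  rw [div_lt_iff₀ hy] at g1
  rw [div_lt_iff₀ (by positivity)] at g3
  have h1θ : 0 < 1 - θ := by linarith
  have hp : Real.exp (-(σ * yy i)) ≤ (1 - θ) ^ n := by
    have h5 := Real.one_sub_inv_le_log_of_pos h1θ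
    have h6 : 1 - (1 - θ)⁻¹ = -(θ / (1 - θ)) := by
      field_simp
      ring
    rw [h6] at h5
    have h7 : (1 - θ) ^ n = Real.exp (n * Real.log (1 - θ)) := by
      rw [← Real.log_pow, Real.exp_log (by positivity)]
    rw [h7]
    apply Real.exp_le_exp.2
    have h8 : (n : ℝ) * -(θ / (1 - θ)) ≤ n * Real.log (1 - θ) :=
      mul_le_mul_of_nonneg_left h5 (Nat.cast_nonneg _)
    linarith
  have h2i : (2 : ℝ) ^ i = Real.exp (yy i) := by
    unfold yy
    rw [← Real.log_pow, Real.exp_log (by positivity)]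
  have hMw : (2 : ℝ) ^ i / (H : ℕ) - 1 ≤ ((2 ^ i / H : ℕ) : ℝ) := by
    have h6 : 2 ^ i < H * (2 ^ i / H + 1) := Nat.lt_mul_div_succ _ hHpos'
    have h7 : (2 : ℝ) ^ i < (H : ℕ) * (((2 ^ i / H : ℕ) : ℝ) + 1) := by exact_mod_cast h6
    rw [sub_le_iff_le_add, div_le_iff₀ hHpos]
    linarith
  have hpn : 0 ≤ (1 - θ) ^ n := by positivity
  have hkey : (i : ℝ) - 1 ≤ ((2 ^ i / H : ℕ) : ℝ) * (1 - θ) ^ n := by
    have h8 : (2 : ℝ) ^ i / (H : ℕ) * Real.exp (-(σ * yy i)) - 1 ≤ ((2 ^ i / H : ℕ) : ℝ) * (1 - θ) ^ n := by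
      have h9 : ((2 : ℝ) ^ i / (H : ℕ) - 1) * (1 - θ) ^ n ≤ ((2 ^ i / H : ℕ) : ℝ) * (1 - θ) ^ n :=
        mul_le_mul_of_nonneg_right hMw hpn
      have h10 : (2 : ℝ) ^ i / (H : ℕ) * Real.exp (-(σ * yy i)) ≤ (2 : ℝ) ^ i / (H : ℕ) * (1 - θ) ^ n :=
        mul_le_mul_of_nonneg_left hp (by positivity)
      have hθ0 : 0 ≤ θ ∨ θ < 0 := le_or_gt 0 θ
      have h11 : (1 - θ) ^ n ≤ 1 ∨ θ < 0 := by
        rcases hθ0 with h | h
        · exact Or.inl (pow_le_one₀ h1θ.le (by linarith))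
        · exact Or.inr h
      rcases h11 with h11 | h11
      · nlinarith
      · have h12 : 1 ≤ (1 - θ) ^ n := one_le_pow₀ (by linarith)
        have h13 : Real.exp (-(σ * yy i)) ≤ 1 := Real.exp_le_one_iff.2 (by nlinarith)
        have h14 : (0 : ℝ) ≤ ((2 ^ i / H : ℕ) : ℝ) := Nat.cast_nonneg _
        have h15 : (2 : ℝ) ^ i / (H : ℕ) * Real.exp (-(σ * yy i)) ≤ (2 : ℝ) ^ i / (H : ℕ) :=
          mul_le_of_le_one_right (by positivity) h13
        have h16 : ((2 ^ i / H : ℕ) : ℝ) ≤ ((2 ^ i / H : ℕ) : ℝ) * (1 - θ) ^ n :=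
          le_mul_of_one_le_right h14 h12
        linarith
    refine le_trans ?_ h8
    have h9 : (i : ℝ) ≤ (2 : ℝ) ^ i / (H : ℕ) * Real.exp (-(σ * yy i)) := by
      rw [h2i, div_mul_eq_mul_div, ← Real.exp_add, le_div_iff₀ hHpos]
      have e1 : yy i + -(σ * yy i) = (1 - σ) * yy i := by ring
      rw [e1]
      have h10 : yy i ^ (k + 2) < δ * Real.exp ((1 - σ) * yy i) := by
        have h11 := mul_lt_mul_of_pos_right g6 (Real.exp_pos ((1 - σ) * yy i))
        rw [mul_assoc, ← Real.exp_add, neg_add_cancel, Real.exp_zero, mul_one] at h11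
        exact h11
      have h12 : (i : ℝ) * (H : ℕ) ≤ (i : ℝ) * ((κ + 1) * yy i ^ (k + 1)) :=
        mul_le_mul_of_nonneg_left g3.le (Nat.cast_nonneg _)
      have h13 : (i : ℝ) = yy i / Real.log 2 := by
        unfold yy
        have := log2_pos
        field_simp
      have h14 : (i : ℝ) * ((κ + 1) * yy i ^ (k + 1)) = (κ + 1) / Real.log 2 * yy i ^ (k + 2) := by
        rw [h13, pow_succ (yy i) (k + 1)]
        ring
      have h15 : (κ + 1) / Real.log 2 * yy i ^ (k + 2) ≤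
          (κ + 1) / Real.log 2 * (δ * Real.exp ((1 - σ) * yy i)) :=
        mul_le_mul_of_nonneg_left h10.le (div_nonneg (by linarith) log2_pos.le)
      have h16 : (κ + 1) / Real.log 2 * (δ * Real.exp ((1 - σ) * yy i)) =
          1 / 2 * Real.exp ((1 - σ) * yy i) := by
        rw [hδ]
        have h17 := log2_pos
        have h18 : κ + 1 ≠ 0 := by linarith
        field_simp
      have h17 := Real.exp_pos ((1 - σ) * yy i)
      linarith
    linarith
  rw [Nat.cast_one, one_mul, Real.norm_of_nonneg (Real.exp_pos _).le, ← Real.exp_add]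
  apply Real.exp_le_exp.2
  linarith

end Pool.Agent.N730.KT
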