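import Mathlib
import Pool.Agent.N740.HK.Conc

/-!
# Failure of all of many trials
-/

set_option autoImplicit false
set_option linter.unusedSectionVars false

open MeasureTheory Filter Set
open scoped ENNReal Topology

namespace Pool.Agent.N730.KT

open Pool.Agent.R528.RM Pool.Agent.N740.HK

variable {Ω : Type} {m0 : MeasurableSpace Ω} {μ : Measure Ω} [IsProbabilityMeasure μ]
  {ℱ : Filtration ℕ m0} {A : ℕ → Set Ω}

/-- the transform -/
noncomputable def NZ (μ : Measure Ω) (ℱ : Filtration ℕ m0) (A : ℕ → Set Ω) (w : ℕ → Ω → ℝ) (N : ℕ)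
    (ω : Ω) : ℝ :=
  ∏ t ∈ Finset.range N, ((1 - w t ω * J1 A (t + 1) ω) * Real.exp (w t ω * DD' μ ℱ A t ω))

lemma NZ_meas (hA : ∀ n, MeasurableSet[ℱ n] (A n)) {w : ℕ → Ω → ℝ}
    (hw : ∀ n, StronglyMeasurable[ℱ n] (w n)) (N : ℕ) : StronglyMeasurable[ℱ N] (NZ μ ℱ A w N) := by
  have e : NZ μ ℱ A w N = fun ω => ∏ t ∈ Finset.range N,
      ((1 - w t ω * J1 A (t + 1) ω) * Real.exp (w t ω * DD' μ ℱ A t ω)) := rfl
  rw [e]
  refine Finset.stronglyMeasurable_fun_prod _ fun n hn => ?_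
  have hn := Finset.mem_range.1 hn
  have h1 : StronglyMeasurable[ℱ N] (w n) := (hw n).mono (ℱ.mono hn.le)
  have h2 : StronglyMeasurable[ℱ N] (J1 A (n + 1)) := (J1_meas hA (n + 1)).mono (ℱ.mono hn)
  have h3 : StronglyMeasurable[ℱ N] (DD' μ ℱ A n) := (DD'_meas n).mono (ℱ.mono hn.le)
  exact ((@stronglyMeasurable_const _ _ (ℱ N) _ _).sub (h1.mul h2)).mul
    (Real.continuous_exp.comp_stronglyMeasurable (h1.mul h3))

lemma NZ_bd {w : ℕ → Ω → ℝ} (h01 : ∀ n ω, 0 ≤ w n ω ∧ w n ω ≤ 1) (N : ℕ) (ω : Ω) :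
    0 ≤ NZ μ ℱ A w N ω ∧ NZ μ ℱ A w N ω ≤ Real.exp N := by
  have hf : ∀ t, 0 ≤ (1 - w t ω * J1 A (t + 1) ω) * Real.exp (w t ω * DD' μ ℱ A t ω) ∧
      (1 - w t ω * J1 A (t + 1) ω) * Real.exp (w t ω * DD' μ ℱ A t ω) ≤ Real.exp 1 := by
    intro t
    have h1 := h01 t ω
    have h2 := J1_01 (A := A) (t + 1) ω
    have h3 := DD'_bd (μ := μ) (ℱ := ℱ) (A := A) t ω
    have h4 : 0 ≤ w t ω * J1 A (t + 1) ω := mul_nonneg h1.1 h2.1
    have h5 : w t ω * J1 A (t + 1) ω ≤ 1 := mul_le_one₀ h1.2 h2.1 h2.2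
    have h6 : w t ω * DD' μ ℱ A t ω ≤ 1 := mul_le_one₀ h1.2 h3.1 h3.2
    have h7 : Real.exp (w t ω * DD' μ ℱ A t ω) ≤ Real.exp 1 := Real.exp_le_exp.2 h6
    have h8 := Real.exp_pos (w t ω * DD' μ ℱ A t ω)
    refine ⟨mul_nonneg (by linarith) h8.le, ?_⟩
    calc (1 - w t ω * J1 A (t + 1) ω) * Real.exp (w t ω * DD' μ ℱ A t ω)
        ≤ 1 * Real.exp 1 := mul_le_mul (by linarith) h7 h8.le zero_le_one
      _ = _ := one_mul _
  unfold NZ
  refine ⟨Finset.prod_nonneg fun t _ => (hf t).1, ?_⟩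
  calc ∏ t ∈ Finset.range N, ((1 - w t ω * J1 A (t + 1) ω) * Real.exp (w t ω * DD' μ ℱ A t ω))
      ≤ ∏ t ∈ Finset.range N, Real.exp 1 :=
        Finset.prod_le_prod (fun t _ => (hf t).1) fun t _ => (hf t).2
    _ = Real.exp N := by
        rw [Finset.prod_const, Finset.card_range, ← Real.exp_nat_mul, mul_one]

theorem NZ_int (hA : ∀ n, MeasurableSet[ℱ n] (A n)) {w : ℕ → Ω → ℝ}
    (hw : ∀ n, StronglyMeasurable[ℱ n] (w n)) (h01 : ∀ n ω, 0 ≤ w n ω ∧ w n ω ≤ 1) (N : ℕ) :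
    ∫ ω, NZ μ ℱ A w N ω ∂μ ≤ 1 := by
  induction N with
  | zero => simp [NZ]
  | succ N ih =>
    set D : Ω → ℝ := DD' μ ℱ A N with hD
    set a : Ω → ℝ := fun ω => NZ μ ℱ A w N ω * Real.exp (w N ω * D ω) with ha
    have hZm : StronglyMeasurable[ℱ N] (NZ μ ℱ A w N) := NZ_meas hA hw N
    have hDm : StronglyMeasurable[ℱ N] D := DD'_meas N
    have ham : StronglyMeasurable[ℱ N] a :=
      hZm.mul (Real.continuous_exp.comp_stronglyMeasurable ((hw N).mul hDm))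
    have hD1 : ∀ ω, 0 ≤ D ω ∧ D ω ≤ 1 := fun ω => DD'_bd N ω
    have hwD : ∀ ω, 0 ≤ w N ω * D ω ∧ w N ω * D ω ≤ 1 := fun ω =>
      ⟨mul_nonneg (h01 N ω).1 (hD1 ω).1, mul_le_one₀ (h01 N ω).2 (hD1 ω).1 (hD1 ω).2⟩
    have hZ := fun ω => NZ_bd (μ := μ) (ℱ := ℱ) (A := A) h01 N ω
    have ha0 : ∀ ω, 0 ≤ a ω := fun ω => mul_nonneg (hZ ω).1 (Real.exp_pos _).le
    have ha1 : ∀ ω, |a ω| ≤ Real.exp N * Real.exp 1 := fun ω => by
      rw [abs_of_nonneg (ha0 ω)]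
      exact mul_le_mul (hZ ω).2 (Real.exp_le_exp.2 (hwD ω).2) (Real.exp_pos _).le
        (Real.exp_pos _).le
    have haw1 : ∀ ω, |a ω * w N ω| ≤ Real.exp N * Real.exp 1 := fun ω => by
      rw [abs_mul, abs_of_nonneg (h01 N ω).1]
      calc |a ω| * w N ω ≤ (Real.exp N * Real.exp 1) * 1 :=
            mul_le_mul (ha1 ω) (h01 N ω).2 (h01 N ω).1 (by positivity)
        _ = _ := mul_one _
    have k1 := jkey_int (μ := μ) hA (n := N) (f := fun ω => a ω * w N ω) (ham.mul (hw N)) haw1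
    have e1 : ∀ ω, NZ μ ℱ A w (N + 1) ω =
        (a ω - a ω * w N ω * D ω) - (a ω * w N ω) * (J1 A (N + 1) ω - D ω) := by
      intro ω
      have e2 : NZ μ ℱ A w (N + 1) ω = NZ μ ℱ A w N ω *
          ((1 - w N ω * J1 A (N + 1) ω) * Real.exp (w N ω * D ω)) := by
        unfold NZ
        rw [Finset.prod_range_succ]
      rw [e2]
      simp only [ha]
      ring
    have i1 : Integrable (fun ω => a ω - a ω * w N ω * D ω) μ := by
      refine intb (c := Real.exp N * Real.exp 1 + Real.exp N * Real.exp 1) ?_ fun ω => ?_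
      · exact ((ham.sub ((ham.mul (hw N)).mul hDm))).mono (ℱ.le _)
      · refine (abs_sub _ _).trans (add_le_add (ha1 ω) ?_)
        rw [abs_mul]
        calc |a ω * w N ω| * |D ω| ≤ (Real.exp N * Real.exp 1) * 1 := by
              apply mul_le_mul (haw1 ω) _ (abs_nonneg _) (by positivity)
              rw [abs_of_nonneg (hD1 ω).1]
              exact (hD1 ω).2
          _ = _ := mul_one _
    have i2 : Integrable (fun ω => (a ω * w N ω) * (J1 A (N + 1) ω - D ω)) μ := by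
      refine intb (c := Real.exp N * Real.exp 1) ?_ fun ω => ?_
      · exact ((ham.mul (hw N)).mono (ℱ.le _)).mul
          (((J1_meas hA (N + 1)).mono (ℱ.le _)).sub (hDm.mono (ℱ.le _)))
      · rw [abs_mul]
        calc |a ω * w N ω| * |J1 A (N + 1) ω - D ω| ≤ (Real.exp N * Real.exp 1) * 1 :=
              mul_le_mul (haw1 ω) (JD_abs N ω) (abs_nonneg _) (by positivity)
          _ = _ := mul_one _
    have i3 : Integrable (NZ μ ℱ A w N) μ := by
      refine intb (c := Real.exp N) (hZm.mono (ℱ.le _)) fun ω => ?_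
      rw [abs_of_nonneg (hZ ω).1]
      exact (hZ ω).2
    have e4 : ∫ ω, NZ μ ℱ A w (N + 1) ω ∂μ = ∫ ω, (a ω - a ω * w N ω * D ω) ∂μ := by
      have e0 : (fun ω => NZ μ ℱ A w (N + 1) ω) =
          fun ω => (a ω - a ω * w N ω * D ω) - (a ω * w N ω) * (J1 A (N + 1) ω - D ω) := funext e1
      rw [e0]
      have := integral_sub i1 i2
      rw [this, k1, sub_zero]
    rw [e4]
    refine le_trans (integral_mono i1 i3 fun ω => ?_) ih
    show a ω - a ω * w N ω * D ω ≤ NZ μ ℱ A w N ω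
    have h6 : 1 - w N ω * D ω ≤ Real.exp (-(w N ω * D ω)) := by
      have := Real.add_one_le_exp (-(w N ω * D ω))
      linarith
    calc a ω - a ω * w N ω * D ω = a ω * (1 - w N ω * D ω) := by ring
      _ ≤ a ω * Real.exp (-(w N ω * D ω)) := mul_le_mul_of_nonneg_left h6 (ha0 ω)
      _ = _ := by
          simp only [ha]
          rw [mul_assoc, ← Real.exp_add, add_neg_cancel, Real.exp_zero, mul_one]

/-- all trials fail although many are expected to succeed -/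
lemma fail_le (hA : ∀ n, MeasurableSet[ℱ n] (A n)) {w : ℕ → Ω → ℝ}
    (hw : ∀ n, StronglyMeasurable[ℱ n] (w n)) (h01 : ∀ n ω, 0 ≤ w n ω ∧ w n ω ≤ 1) (N : ℕ) {R : ℝ} :
    μ.real {ω | R ≤ ∑ t ∈ Finset.range N, w t ω * DD' μ ℱ A t ω ∧
      ∀ t < N, w t ω * J1 A (t + 1) ω = 0} ≤ Real.exp (-R) := by
  have i3 : Integrable (NZ μ ℱ A w N) μ := by
    refine intb (c := Real.exp N) ((NZ_meas hA hw N).mono (ℱ.le _)) fun ω => ?_
    rw [abs_of_nonneg (NZ_bd (μ := μ) (ℱ := ℱ) (A := A) h01 N ω).1]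
    exact (NZ_bd (μ := μ) (ℱ := ℱ) (A := A) h01 N ω).2
  have h1 := mul_meas_ge_le_integral_of_nonneg
    (Eventually.of_forall fun ω => (NZ_bd (μ := μ) (ℱ := ℱ) (A := A) h01 N ω).1) i3 (Real.exp R)
  have h2 : {ω | R ≤ ∑ t ∈ Finset.range N, w t ω * DD' μ ℱ A t ω ∧
      ∀ t < N, w t ω * J1 A (t + 1) ω = 0} ⊆ {ω | Real.exp R ≤ NZ μ ℱ A w N ω} := by
    rintro ω ⟨h3, h4⟩
    show Real.exp R ≤ NZ μ ℱ A w N ω
    have e : NZ μ ℱ A w N ω = Real.exp (∑ t ∈ Finset.range N, w t ω * DD' μ ℱ A t ω) := by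
      unfold NZ
      rw [Real.exp_sum]
      refine Finset.prod_congr rfl fun t ht => ?_
      rw [h4 t (Finset.mem_range.1 ht), sub_zero, one_mul]
    rw [e]
    exact Real.exp_le_exp.2 h3
  have h3 := NZ_int (μ := μ) hA hw h01 N
  have h4 : μ.real {ω | R ≤ ∑ t ∈ Finset.range N, w t ω * DD' μ ℱ A t ω ∧
      ∀ t < N, w t ω * J1 A (t + 1) ω = 0} ≤ μ.real {ω | Real.exp R ≤ NZ μ ℱ A w N ω} :=
    measureReal_mono h2
  have h5 : Real.exp R * μ.real {ω | Real.exp R ≤ NZ μ ℱ A w N ω} ≤ 1 := h1.trans h3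
  have h6 : Real.exp R * μ.real {ω | R ≤ ∑ t ∈ Finset.range N, w t ω * DD' μ ℱ A t ω ∧
      ∀ t < N, w t ω * J1 A (t + 1) ω = 0} ≤ 1 :=
    (mul_le_mul_of_nonneg_left h4 (Real.exp_pos R).le).trans h5
  rw [Real.exp_neg, ← one_div, le_div_iff₀ (Real.exp_pos R), mul_comm]
  exact h6

/-- **almost surely not all the trials of family `n` fail** if more than `c log n`, `c > 1`, are
expected to succeed -/
theorem no_fail (hA : ∀ n, MeasurableSet[ℱ n] (A n)) {c : ℝ} (hc : 1 < c) (w : ℕ → ℕ → Ω → ℝ)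
    (E : ℕ → ℕ) (hw : ∀ n t, StronglyMeasurable[ℱ t] (w n t))
    (h01 : ∀ n t ω, 0 ≤ w n t ω ∧ w n t ω ≤ 1) :
    ∀ᵐ ω ∂μ, ∀ᶠ n : ℕ in atTop,
      c * Real.log n ≤ ∑ t ∈ Finset.range (E n), w n t ω * dens μ ℱ A t ω →
        ∃ t < E n, w n t ω * J1 A (t + 1) ω ≠ 0 := by
  have hs : ∑' n : ℕ, μ {ω | c * Real.log n ≤ ∑ t ∈ Finset.range (E n), w n t ω * DD' μ ℱ A t ω ∧
      ∀ t < E n, w n t ω * J1 A (t + 1) ω = 0} ≠ ∞ := by
    have h1 : Summable (fun n : ℕ => 1 / (n : ℝ) ^ c) := Real.summable_one_div_nat_rpow.2 hc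
    have h2 : Summable (fun n : ℕ => μ.real {ω | c * Real.log n ≤
        ∑ t ∈ Finset.range (E n), w n t ω * DD' μ ℱ A t ω ∧
        ∀ t < E n, w n t ω * J1 A (t + 1) ω = 0}) := by
      refine Summable.of_norm_bounded_eventually_nat h1 ?_
      filter_upwards [eventually_gt_atTop 0] with n hn
      rw [Real.norm_of_nonneg measureReal_nonneg]
      refine (fail_le hA (hw n) (h01 n) (E n)).trans (le_of_eq ?_)
      have hn' : (0 : ℝ) < n := by exact_mod_cast hn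
      rw [Real.exp_neg, mul_comm, ← Real.rpow_def_of_pos hn', one_div]
    have h3 : ∑' n : ℕ, μ {ω | c * Real.log n ≤ ∑ t ∈ Finset.range (E n), w n t ω * DD' μ ℱ A t ω ∧
        ∀ t < E n, w n t ω * J1 A (t + 1) ω = 0} =
        ENNReal.ofReal (∑' n : ℕ, μ.real {ω | c * Real.log n ≤
          ∑ t ∈ Finset.range (E n), w n t ω * DD' μ ℱ A t ω ∧
          ∀ t < E n, w n t ω * J1 A (t + 1) ω = 0}) := by
      rw [ENNReal.ofReal_tsum_of_nonneg (fun _ => measureReal_nonneg) h2]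
      congr 1
      funext i
      exact (ofReal_measureReal (measure_ne_top _ _)).symm
    rw [h3]
    exact ENNReal.ofReal_ne_top
  filter_upwards [ae_eventually_notMem hs, DD'_ae (μ := μ) hA] with ω hω h3
  filter_upwards [hω] with n hn h4
  by_contra hcon
  push Not at hcon
  apply hn
  refine ⟨?_, hcon⟩
  simp_rw [h3]
  exact h4

end Pool.Agent.N730.KT
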