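import Mathlib
import Pool.Agent.N730.KT.Up
import Pool.Agent.R528.RM.BHFinal

/-!
# The number of the sub-tuples in a window; no large gap between tuples
-/

set_option autoImplicit false
set_option linter.unusedSectionVars false

open MeasureTheory Filter Set
open scoped ENNReal Topology

namespace Pool.Agent.N730.KT

open Pool.Agent.R528.RM Pool.Agent.N740.HK

variable {Ω : Type} {m0 : MeasurableSpace Ω} {μ : Measure Ω} [IsProbabilityMeasure μ]
  {ℱ : Filtration ℕ m0} {A : ℕ → Set Ω}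

/-- all `s + d` are prime to `W` -/
def cop (D : Finset ℕ) (W s : ℕ) : Prop := ∀ d ∈ D, Nat.Coprime (s + d) W

noncomputable instance (D : Finset ℕ) (W : ℕ) : DecidablePred (cop D W) := Classical.decPred _

lemma cop_per (D : Finset ℕ) (W : ℕ) : Function.Periodic (cop D W) W := by
  intro s
  unfold cop
  apply propext
  refine forall₂_congr fun d _ => ?_
  rw [show s + W + d = s + d + W by ring, Nat.coprime_add_self_left]

/-- the number of the admissible classes -/
noncomputable def nu (D : Finset ℕ) (W : ℕ) : ℕ := Nat.count (cop D W) W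

lemma cnt_mul (D : Finset ℕ) (W x q : ℕ) :
    ((Finset.Ico x (x + W * q)).filter (cop D W)).card = nu D W * q := by
  induction q with
  | zero => simp
  | succ q ih =>
    have h1 : Finset.Ico x (x + W * (q + 1)) = Finset.Ico x (x + W * q) ∪
        Finset.Ico (x + W * q) (x + W * q + W) := by
      rw [Finset.Ico_union_Ico_eq_Ico (by omega) (by omega)]
      congr 1
      ring
    have h2 : Disjoint (Finset.Ico x (x + W * q)) (Finset.Ico (x + W * q) (x + W * q + W)) :=
      Finset.Ico_disjoint_Ico_consecutive _ _ _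
    rw [h1, Finset.filter_union, Finset.card_union_of_disjoint (Finset.disjoint_filter_filter h2), ih,
      Nat.filter_Ico_card_eq_of_periodic _ _ _ (cop_per D W)]
    unfold nu
    ring

lemma cnt_up (D : Finset ℕ) {W : ℕ} (hW : 0 < W) (x L : ℕ) :
    ((Finset.Ico x (x + L)).filter (cop D W)).card ≤ nu D W * (L / W + 1) := by
  rw [← cnt_mul D W x]
  refine Finset.card_le_card (Finset.filter_subset_filter _ (Finset.Ico_subset_Ico_right ?_))
  have := Nat.lt_mul_div_succ L hW
  have : L < W * (L / W + 1) := this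
  omega

lemma cnt_low (D : Finset ℕ) (W x L : ℕ) :
    nu D W * (L / W) ≤ ((Finset.Ico x (x + L)).filter (cop D W)).card := by
  rw [← cnt_mul D W x]
  refine Finset.card_le_card (Finset.filter_subset_filter _ (Finset.Ico_subset_Ico_right ?_))
  have := Nat.mul_div_le L W
  omega

/-- the indicator of the event that `s + T` is chosen, `s` admissible -/
noncomputable def B (A : ℕ → Set Ω) (D : Finset ℕ) (W : ℕ) (T : Finset ℕ) (s : ℕ) (ω : Ω) : ℝ :=
  (if cop D W s then 1 else 0) * ∏ d ∈ T, J1 A (s + d) ω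

lemma B01 (D : Finset ℕ) (W : ℕ) (T : Finset ℕ) (s : ℕ) (ω : Ω) :
    0 ≤ B A D W T s ω ∧ B A D W T s ω ≤ 1 := by
  unfold B
  have h1 : 0 ≤ ∏ d ∈ T, J1 A (s + d) ω := Finset.prod_nonneg fun d _ => (J1_01 _ ω).1
  have h2 : ∏ d ∈ T, J1 A (s + d) ω ≤ 1 :=
    Finset.prod_le_one (fun d _ => (J1_01 _ ω).1) fun d _ => (J1_01 _ ω).2
  split_ifs
  · rw [one_mul]
    exact ⟨h1, h2⟩
  · rw [zero_mul]
    exact ⟨le_rfl, zero_le_one⟩

lemma B_meas (hA : ∀ n, MeasurableSet[ℱ n] (A n)) (D : Finset ℕ) (W : ℕ) (T : Finset ℕ) (s e : ℕ)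
    (he : ∀ d ∈ T, s + d ≤ e) : StronglyMeasurable[ℱ e] (B A D W T s) := by
  have e1 : B A D W T s = fun ω => (if cop D W s then (1 : ℝ) else 0) * ∏ d ∈ T, J1 A (s + d) ω := rfl
  rw [e1]
  refine (@stronglyMeasurable_const _ _ (ℱ e) _ _).mul ?_
  exact Finset.stronglyMeasurable_fun_prod _ fun d hd => (J1_meas hA (s + d)).mono (ℱ.mono (he d hd))

lemma B_insert (D : Finset ℕ) (W : ℕ) {T : Finset ℕ} {v : ℕ} (hv : v ∉ T) (s : ℕ) (ω : Ω) :
    B A D W (insert v T) s ω = B A D W T s ω * J1 A (s + v) ω := by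
  unfold B
  rw [Finset.prod_insert hv]
  ring

/-- the number of the `s` in `(x, x + L x]` with `s + T` chosen -/
noncomputable def NT (A : ℕ → Set Ω) (D : Finset ℕ) (W : ℕ) (T : Finset ℕ) (L : ℕ → ℕ) (x : ℕ)
    (ω : Ω) : ℝ := ∑ t ∈ Finset.Ico x (x + L x), B A D W T (t + 1) ω

/-- the predictable weights -/
noncomputable def wv (A : ℕ → Set Ω) (D : Finset ℕ) (W : ℕ) (T : Finset ℕ) (L : ℕ → ℕ) (v x t : ℕ)
    (ω : Ω) : ℝ := if x + v ≤ t ∧ t < x + L x + v then B A D W T (t + 1 - v) ω else 0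

lemma wv01 (D : Finset ℕ) (W : ℕ) (T : Finset ℕ) (L : ℕ → ℕ) (v x t : ℕ) (ω : Ω) :
    0 ≤ wv A D W T L v x t ω ∧ wv A D W T L v x t ω ≤ 1 := by
  unfold wv
  split_ifs
  · exact B01 _ _ _ _ _
  · exact ⟨le_rfl, zero_le_one⟩

lemma wv_meas (hA : ∀ n, MeasurableSet[ℱ n] (A n)) (D : Finset ℕ) (W : ℕ) {T : Finset ℕ} (L : ℕ → ℕ)
    {v : ℕ} (hT : ∀ d ∈ T, d < v) (x t : ℕ) : StronglyMeasurable[ℱ t] (wv A D W T L v x t) := by
  have e1 : wv A D W T L v x t =
      fun ω => if x + v ≤ t ∧ t < x + L x + v then B A D W T (t + 1 - v) ω else 0 := rfl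
  rw [e1]
  by_cases h : x + v ≤ t ∧ t < x + L x + v
  · simp only [if_pos h]
    refine B_meas hA D W T _ _ fun d hd => ?_
    have := hT d hd
    omega
  · simp only [if_neg h]
    exact @stronglyMeasurable_const _ _ (ℱ t) _ _

lemma wv_sum (D : Finset ℕ) (W : ℕ) (T : Finset ℕ) (L : ℕ → ℕ) (v x : ℕ) (ω : Ω) (F : ℕ → ℝ) :
    ∑ t ∈ Finset.range (x + L x + v), wv A D W T L v x t ω * F (t + 1) =
      ∑ t ∈ Finset.Ico x (x + L x), B A D W T (t + 1) ω * F (t + 1 + v) := by
  have h1 : ∑ t ∈ Finset.range (x + L x + v), wv A D W T L v x t ω * F (t + 1) =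
      ∑ t ∈ Finset.Ico (x + v) (x + L x + v), wv A D W T L v x t ω * F (t + 1) := by
    refine (Finset.sum_subset ?_ ?_).symm
    · intro t ht
      rw [Finset.mem_Ico] at ht
      exact Finset.mem_range.2 ht.2
    · intro t ht1 ht2
      rw [Finset.mem_range] at ht1
      rw [Finset.mem_Ico, not_and_or] at ht2
      unfold wv
      rw [if_neg (by omega), zero_mul]
  rw [h1, ← Finset.sum_Ico_add' (fun t => wv A D W T L v x t ω * F (t + 1)) x (x + L x) v]
  refine Finset.sum_congr rfl fun t ht => ?_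
  rw [Finset.mem_Ico] at ht
  unfold wv
  rw [if_pos (by omega)]
  have e1 : t + v + 1 - v = t + 1 := by omega
  have e2 : t + v + 1 = t + 1 + v := by omega
  rw [e1, e2]

/-- the lengths of the windows -/
noncomputable def Lf (lam : ℝ) (k : ℕ) (x : ℕ) : ℕ := ⌊lam * Real.log x ^ (k + 1)⌋₊

lemma Lf_small (lam : ℝ) (k : ℕ) : ∀ᶠ x : ℕ in atTop, Lf lam k x ≤ x := by
  have h1 := (Real.isLittleO_pow_log_id_atTop (n := k + 1)).def (show (0 : ℝ) < 1 / (|lam| + 1) by positivity)
  filter_upwards [tendsto_natCast_atTop_atTop.eventually h1, eventually_gt_atTop 1] with x hx hx0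
  have hx1 : (1 : ℝ) < x := by exact_mod_cast hx0
  have hL : 0 ≤ Real.log x := Real.log_nonneg hx1.le
  rw [Real.norm_of_nonneg (by positivity), id, Real.norm_of_nonneg (by linarith)] at hx
  unfold Lf
  refine Nat.floor_le_of_le ?_
  have h2 : lam * Real.log x ^ (k + 1) ≤ (|lam| + 1) * Real.log x ^ (k + 1) :=
    mul_le_mul_of_nonneg_right ((le_abs_self _).trans (by linarith)) (by positivity)
  have h3 : (|lam| + 1) * Real.log x ^ (k + 1) ≤ (|lam| + 1) * (1 / (|lam| + 1) * x) :=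
    mul_le_mul_of_nonneg_left hx (by positivity)
  have h4 : (|lam| + 1) * (1 / (|lam| + 1) * (x : ℝ)) = x := by field_simp
  linarith

lemma log_near (lam : ℝ) (k v : ℕ) {η : ℝ} (hη : 0 < η) : ∀ᶠ x : ℕ in atTop,
    ∀ t < x + Lf lam k x, Real.log ((t + 1 + v : ℕ) : ℝ) ≤ (1 + η) * Real.log x := by
  filter_upwards [Lf_small lam k, tendsto_logN.eventually_ge_atTop (Real.log 3 / η),
    eventually_ge_atTop (v + 1)] with x h1 h2 h3 t ht
  have hx : (0 : ℝ) < x := by exact_mod_cast (by omega : 0 < x)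
  have h4 : ((t + 1 + v : ℕ) : ℝ) ≤ 3 * x := by exact_mod_cast (by omega : t + 1 + v ≤ 3 * x)
  have h5 : Real.log ((t + 1 + v : ℕ) : ℝ) ≤ Real.log (3 * x) :=
    Real.log_le_log (by exact_mod_cast (by omega : 0 < t + 1 + v)) h4
  rw [Real.log_mul (by norm_num) hx.ne'] at h5
  rw [div_le_iff₀ hη] at h2
  linarith

/-- the compensator -/
lemma U_low (D : Finset ℕ) {W : ℕ} (hW : 0 < W) (T : Finset ℕ) {v : ℕ} (hv : v ∈ D) (lam : ℝ) (k : ℕ)
    {η : ℝ} (hη : 0 < η) : ∀ᶠ x : ℕ in atTop, ∀ ω : Ω,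
      ((W : ℝ) / Nat.totient W) / ((1 + η) * Real.log x) * NT A D W T (Lf lam k) x ω ≤
        ∑ t ∈ Finset.Ico x (x + Lf lam k x), B A D W T (t + 1) ω * rhoW W (t + 1 + v) := by
  set c := (W : ℝ) / Nat.totient W with hc
  have hc0 : 0 < c := div_pos (by exact_mod_cast hW) (by exact_mod_cast Nat.totient_pos.2 hW)
  filter_upwards [log_near lam k v hη, tendsto_logN.eventually_ge_atTop c,
    tendsto_logN.eventually_gt_atTop 0, eventually_gt_atTop 1] with x h1 h2 h3 h4 ω
  unfold NT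
  rw [Finset.mul_sum]
  refine Finset.sum_le_sum fun t ht => ?_
  rw [Finset.mem_Ico] at ht
  by_cases hcop : cop D W (t + 1)
  · have h5 := hcop v hv
    have h6 := h1 t ht.2
    have h7 : Real.log x ≤ Real.log ((t + 1 + v : ℕ) : ℝ) :=
      Real.log_le_log (by exact_mod_cast (by omega : 0 < x)) (by exact_mod_cast (by omega : x ≤ t + 1 + v))
    have h8 : c / ((1 + η) * Real.log x) ≤ rhoW W (t + 1 + v) := by
      unfold rhoW
      rw [if_pos h5]
      refine le_min ?_ ?_
      · rw [div_le_one (by positivity)]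
        nlinarith
      · exact div_le_div_of_nonneg_left hc0.le (by linarith) h6
    rw [mul_comm]
    exact mul_le_mul_of_nonneg_left h8 (B01 _ _ _ _ _).1
  · have h5 : B A D W T (t + 1) ω = 0 := by
      unfold B
      rw [if_neg hcop, zero_mul]
    rw [h5]
    simp

/-- the number of the sub-tuples, from below -/
theorem chain (hA : ∀ n, MeasurableSet[ℱ n] (A n)) {W : ℕ} (hW : 0 < W)
    (hd : ∀ᵐ ω ∂μ, ∀ ε : ℝ, 0 < ε → ∀ᶠ n : ℕ in atTop,
      |dens μ ℱ A n ω - rhoW W (n + 1)| ≤ ε * rhoW W (n + 1))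
    (D : Finset ℕ) {lam : ℝ} (hlam : 0 < lam) (T : Finset ℕ) :
    T ⊆ D → T.card + 1 ≤ D.card → ∀ᵐ ω ∂μ, ∀ c : ℝ,
      c < (nu D W : ℝ) / W * lam * ((W : ℝ) / Nat.totient W) ^ T.card →
      ∀ᶠ x : ℕ in atTop, c * Real.log x ^ (D.card + 1 - T.card) ≤
        NT A D W T (Lf lam D.card) x ω := by
  classical
  have hw0 : 0 < (W : ℝ) / Nat.totient W :=
    div_pos (by exact_mod_cast hW) (by exact_mod_cast Nat.totient_pos.2 hW)
  have hW' : (0 : ℝ) < W := by exact_mod_cast hW
  induction T using Finset.induction_on_max with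
  | empty =>
    intro _ _
    refine Eventually.of_forall fun ω c hc => ?_
    rw [Finset.card_empty, pow_zero, mul_one] at hc
    rw [Finset.card_empty, Nat.sub_zero]
    set k := D.card
    set K : ℝ := nu D W * (1 / W + 1) with hK
    have hpow : Tendsto (fun x : ℕ => ((nu D W : ℝ) / W * lam - c) * Real.log x ^ (k + 1)) atTop atTop :=
      ((tendsto_pow_atTop (by omega)).comp tendsto_logN).const_mul_atTop (by linarith)
    filter_upwards [hpow.eventually_ge_atTop K, tendsto_logN.eventually_gt_atTop 0] with x h1 h2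
    have e1 : NT A D W ∅ (Lf lam k) x ω =
        (((Finset.Ico (x + 1) (x + 1 + Lf lam k x)).filter (cop D W)).card : ℝ) := by
      unfold NT B
      simp only [Finset.prod_empty, mul_one]
      rw [Finset.sum_Ico_add' (fun t => if cop D W t then (1 : ℝ) else 0) x (x + Lf lam k x) 1,
        Finset.sum_boole, show x + Lf lam k x + 1 = x + 1 + Lf lam k x by ring]
    rw [e1]
    have h3 : ((nu D W * (Lf lam k x / W) : ℕ) : ℝ) ≤
        (((Finset.Ico (x + 1) (x + 1 + Lf lam k x)).filter (cop D W)).card : ℝ) := by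
      exact_mod_cast cnt_low D W (x + 1) (Lf lam k x)
    refine le_trans ?_ h3
    have h4 : lam * Real.log x ^ (k + 1) - 1 ≤ Lf lam k x := (Nat.sub_one_lt_floor _).le
    have h5 : (Lf lam k x : ℝ) / W - 1 ≤ ((Lf lam k x / W : ℕ) : ℝ) := by
      have h6 : Lf lam k x < W * (Lf lam k x / W + 1) := Nat.lt_mul_div_succ _ hW
      have h7 : (Lf lam k x : ℝ) < W * (((Lf lam k x / W : ℕ) : ℝ) + 1) := by exact_mod_cast h6
      rw [sub_le_iff_le_add, div_le_iff₀ hW']
      linarith
    push_cast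
    have hnu : (0 : ℝ) ≤ nu D W := Nat.cast_nonneg _
    have h8 : (lam * Real.log x ^ (k + 1) - 1) / W - 1 ≤ ((Lf lam k x / W : ℕ) : ℝ) :=
      le_trans (sub_le_sub_right (div_le_div_of_nonneg_right h4 hW'.le) 1) h5
    have h9 := mul_le_mul_of_nonneg_left h8 hnu
    have e2 : (nu D W : ℝ) * ((lam * Real.log x ^ (k + 1) - 1) / W - 1) =
        (nu D W : ℝ) / W * lam * Real.log x ^ (k + 1) - K := by
      rw [hK]
      field_simp
      ring
    rw [e2] at h9
    have h10 : ((nu D W : ℝ) / W * lam - c) * Real.log x ^ (k + 1) =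
      (nu D W : ℝ) / W * lam * Real.log x ^ (k + 1) - c * Real.log x ^ (k + 1) := by ring
    rw [h10] at h1
    linarith
  | insert v T hv ih =>
    intro hTD hcard
    have hvT : v ∉ T := fun h => lt_irrefl _ (hv v h)
    rw [Finset.card_insert_of_notMem hvT] at hcard
    have hvD : v ∈ D := hTD (Finset.mem_insert_self v T)
    have ih := ih (fun w hw => hTD (Finset.mem_insert_of_mem hw)) (by omega)
    set k := D.card with hk
    have hconc := conc_rho (μ := μ) hA (ρ := fun t => rhoW W (t + 1)) (fun t => rhoW_nonneg W _)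
      ⟨1, fun t => rhoW_le W _⟩ hd (fun x t ω => wv A D W T (Lf lam k) v x t ω)
      (fun x => x + Lf lam k x + v) (fun x t => wv_meas hA D W _ hv x t)
      (fun x t ω => wv01 D W T _ v x t ω)
    filter_upwards [ih, hconc] with ω h1 h2 c hc
    rw [Finset.card_insert_of_notMem hvT] at hc ⊢
    set w : ℝ := (W : ℝ) / Nat.totient W with hw
    set a : ℝ := (nu D W : ℝ) / W * lam * w ^ T.card with ha
    have hca : c < a * w := by
      rw [ha]
      calc c < (nu D W : ℝ) / W * lam * w ^ (T.card + 1) := hc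
        _ = _ := by rw [pow_succ]; ring
    have ha0 : 0 ≤ a := by positivity
    rcases le_or_gt c 0 with hc0 | hc0
    · filter_upwards [tendsto_logN.eventually_gt_atTop 0] with x hx
      refine le_trans (mul_nonpos_of_nonpos_of_nonneg hc0 (by positivity)) ?_
      exact Finset.sum_nonneg fun t _ => (B01 _ _ _ _ _).1
    -- choose `ε`
    obtain ⟨ε, hε0, hε1, hε⟩ : ∃ ε : ℝ, 0 < ε ∧ ε < 1 ∧
        c < (1 - ε) * (w / (1 + ε)) * (a * (1 - ε)) := by
      have hcont : Tendsto (fun ε : ℝ => (1 - ε) * (w / (1 + ε)) * (a * (1 - ε))) (𝓝[>] 0)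
          (𝓝 ((1 - 0) * (w / (1 + 0)) * (a * (1 - 0)))) := by
        apply Tendsto.mono_left _ nhdsWithin_le_nhds
        apply ContinuousAt.tendsto
        have : (1 : ℝ) + 0 ≠ 0 := by norm_num
        fun_prop (disch := assumption)
      rw [sub_zero, add_zero, one_mul, div_one, mul_one, mul_comm w a] at hcont
      have h3 := hcont.eventually (lt_mem_nhds hca)
      have h4 : ∀ᶠ ε : ℝ in 𝓝[>] 0, ε ∈ Ioo (0 : ℝ) 1 := Ioo_mem_nhdsGT one_pos
      obtain ⟨ε, he1, he2⟩ := (h3.and h4).exists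
      exact ⟨ε, he2.1, he2.2, he1⟩
    have hapos : 0 < a := by
      by_contra hcon
      have : a = 0 := le_antisymm (not_lt.1 hcon) ha0
      rw [this] at hca
      linarith
    obtain ⟨C, hC⟩ := h2 ε hε0
    set m : ℕ := k + 1 - (T.card + 1) with hm
    have hm2 : 2 ≤ m := by omega
    have hmT : k + 1 - T.card = m + 1 := by omega
    set g : ℝ := (1 - ε) * (w / (1 + ε)) * (a * (1 - ε)) with hg
    have hpow : Tendsto (fun x : ℕ => (g - c) * Real.log x ^ (m - 1)) atTop atTop :=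
      ((tendsto_pow_atTop (by omega)).comp tendsto_logN).const_mul_atTop (by linarith)
    filter_upwards [h1 (a * (1 - ε)) (by nlinarith), hC, U_low (A := A) D hW T hvD lam k hε0,
      hpow.eventually_ge_atTop C, tendsto_logN.eventually_gt_atTop 0] with x g1 g2 g3 g4 g5
    have g3 := g3 ω
    rw [hmT] at g1
    have e1 := wv_sum (A := A) D W T (Lf lam k) v x ω (fun n => J1 A n ω)
    have e2 := wv_sum (A := A) D W T (Lf lam k) v x ω (fun n => rhoW W n)
    have e3 : ∑ t ∈ Finset.Ico x (x + Lf lam k x), B A D W T (t + 1) ω * J1 A (t + 1 + v) ω =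
        NT A D W (insert v T) (Lf lam k) x ω := by
      unfold NT
      exact Finset.sum_congr rfl fun t _ => (B_insert D W hvT (t + 1) ω).symm
    rw [e1, e3, e2] at g2
    set U := ∑ t ∈ Finset.Ico x (x + Lf lam k x), B A D W T (t + 1) ω * rhoW W (t + 1 + v) with hU
    have g6 := (abs_le.1 g2).1
    have g7 : (1 - ε) * U - C * Real.log x ≤ NT A D W (insert v T) (Lf lam k) x ω := by linarith
    refine le_trans ?_ g7
    have g8 : w / ((1 + ε) * Real.log x) * (a * (1 - ε) * Real.log x ^ (m + 1)) ≤ U :=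
      le_trans (mul_le_mul_of_nonneg_left g1 (by positivity)) g3
    have g9 : w / ((1 + ε) * Real.log x) * (a * (1 - ε) * Real.log x ^ (m + 1)) =
        w / (1 + ε) * (a * (1 - ε)) * Real.log x ^ m := by
      rw [pow_succ]
      field_simp
    rw [g9] at g8
    have g10 : g * Real.log x ^ m ≤ (1 - ε) * U := by
      calc g * Real.log x ^ m = (1 - ε) * (w / (1 + ε) * (a * (1 - ε)) * Real.log x ^ m) := by
            rw [hg]; ring
        _ ≤ _ := mul_le_mul_of_nonneg_left g8 (by linarith)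
    have g11 : C * Real.log x ≤ (g - c) * Real.log x ^ m := by
      calc C * Real.log x ≤ (g - c) * Real.log x ^ (m - 1) * Real.log x :=
            mul_le_mul_of_nonneg_right g4 g5.le
        _ = (g - c) * Real.log x ^ m := by
            rw [mul_assoc, ← pow_succ, show m - 1 + 1 = m by omega]
    nlinarith

/-- **every window contains a tuple** -/
theorem upper (hA : ∀ n, MeasurableSet[ℱ n] (A n)) {W : ℕ} (hW : 0 < W)
    (hd : ∀ᵐ ω ∂μ, ∀ ε : ℝ, 0 < ε → ∀ᶠ n : ℕ in atTop,
      |dens μ ℱ A n ω - rhoW W (n + 1)| ≤ ε * rhoW W (n + 1))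
    {D : Finset ℕ} (hD : D.Nonempty) {lam : ℝ} (hlam : 0 < lam)
    (hS : 1 < lam * ((nu D W : ℝ) / W * ((W : ℝ) / Nat.totient W) ^ D.card)) :
    ∀ᵐ ω ∂μ, ∀ᶠ x : ℕ in atTop, ∃ s : ℕ, x < s ∧ s ≤ x + Lf lam D.card x ∧ ∀ d ∈ D, ω ∈ A (s + d) := by
  classical
  have hw0 : 0 < (W : ℝ) / Nat.totient W :=
    div_pos (by exact_mod_cast hW) (by exact_mod_cast Nat.totient_pos.2 hW)
  set v := D.max' hD with hv
  have hvD : v ∈ D := D.max'_mem hD
  set T := D.erase v with hT
  have hvT : v ∉ T := Finset.notMem_erase v D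
  have hins : insert v T = D := Finset.insert_erase hvD
  have hlt : ∀ d ∈ T, d < v := fun d hd =>
    lt_of_le_of_ne (D.le_max' d (Finset.mem_of_mem_erase hd)) (Finset.ne_of_mem_erase hd)
  have hcard : T.card + 1 = D.card := Finset.card_erase_add_one hvD
  set k := D.card with hk
  set w : ℝ := (W : ℝ) / Nat.totient W with hw
  set a : ℝ := (nu D W : ℝ) / W * lam * w ^ T.card with ha
  have haw : 1 < a * w := by
    rw [ha]
    calc (1 : ℝ) < lam * ((nu D W : ℝ) / W * w ^ k) := hS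
      _ = _ := by rw [← hcard, pow_succ]; ring
  have ha0 : 0 ≤ a := by positivity
  have hapos : 0 < a := by
    by_contra hcon
    have : a = 0 := le_antisymm (not_lt.1 hcon) ha0
    rw [this] at haw
    linarith
  obtain ⟨ε, hε0, hε1, hε⟩ : ∃ ε : ℝ, 0 < ε ∧ ε < 1 ∧
      1 < (1 - ε) * (w / (1 + ε)) * (a * (1 - ε)) := by
    have hcont : Tendsto (fun ε : ℝ => (1 - ε) * (w / (1 + ε)) * (a * (1 - ε))) (𝓝[>] 0)
        (𝓝 ((1 - 0) * (w / (1 + 0)) * (a * (1 - 0)))) := by
      apply Tendsto.mono_left _ nhdsWithin_le_nhds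
      apply ContinuousAt.tendsto
      have : (1 : ℝ) + 0 ≠ 0 := by norm_num
      fun_prop (disch := assumption)
    rw [sub_zero, add_zero, one_mul, div_one, mul_one, mul_comm w a] at hcont
    have h3 := hcont.eventually (lt_mem_nhds haw)
    have h4 : ∀ᶠ ε : ℝ in 𝓝[>] 0, ε ∈ Ioo (0 : ℝ) 1 := Ioo_mem_nhdsGT one_pos
    obtain ⟨ε, he1, he2⟩ := (h3.and h4).exists
    exact ⟨ε, he2.1, he2.2, he1⟩
  set c₁ : ℝ := (1 - ε) * (w / (1 + ε)) * (a * (1 - ε)) with hc₁
  have hch := chain (μ := μ) hA hW hd D hlam T (Finset.erase_subset v D) (by omega)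
  have hnf := no_fail (μ := μ) hA hε (fun x t ω => wv A D W T (Lf lam k) v x t ω)
    (fun x => x + Lf lam k x + v) (fun x t => wv_meas hA D W _ hlt x t)
    (fun x t ω => wv01 D W T _ v x t ω)
  filter_upwards [hch, hnf, hd] with ω h1 h2 h3
  obtain ⟨n₀, hn₀⟩ := eventually_atTop.1 (h3 ε hε0)
  filter_upwards [h1 (a * (1 - ε)) (by nlinarith), h2, U_low (A := A) D hW T hvD lam k hε0,
    tendsto_logN.eventually_gt_atTop 0, eventually_ge_atTop n₀] with x g1 g2 g3 g5 g6
  have g3 := g3 ω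
  have e2 := wv_sum (A := A) D W T (Lf lam k) v x ω (fun n => rhoW W n)
  rw [← e2] at g3
  have hexp : k + 1 - T.card = 2 := by omega
  rw [hexp] at g1
  have g8 : w / ((1 + ε) * Real.log x) * (a * (1 - ε) * Real.log x ^ 2) ≤
      ∑ t ∈ Finset.range (x + Lf lam k x + v), wv A D W T (Lf lam k) v x t ω * rhoW W (t + 1) :=
    le_trans (mul_le_mul_of_nonneg_left g1 (by positivity)) g3
  have g9 : w / ((1 + ε) * Real.log x) * (a * (1 - ε) * Real.log x ^ 2) =
      w / (1 + ε) * (a * (1 - ε)) * Real.log x := by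
    field_simp
  rw [g9] at g8
  have g10 : (1 - ε) * ∑ t ∈ Finset.range (x + Lf lam k x + v),
      wv A D W T (Lf lam k) v x t ω * rhoW W (t + 1) ≤
      ∑ t ∈ Finset.range (x + Lf lam k x + v), wv A D W T (Lf lam k) v x t ω * dens μ ℱ A t ω := by
    rw [Finset.mul_sum]
    refine Finset.sum_le_sum fun t _ => ?_
    by_cases ht : n₀ ≤ t
    · have h4 := (abs_le.1 (hn₀ t ht)).1
      have h5 : (1 - ε) * rhoW W (t + 1) ≤ dens μ ℱ A t ω := by linarith
      calc (1 - ε) * (wv A D W T (Lf lam k) v x t ω * rhoW W (t + 1))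
          = wv A D W T (Lf lam k) v x t ω * ((1 - ε) * rhoW W (t + 1)) := by ring
        _ ≤ _ := mul_le_mul_of_nonneg_left h5 (wv01 D W T _ v x t ω).1
    · have h6 : wv A D W T (Lf lam k) v x t ω = 0 := by
        unfold wv
        rw [if_neg (by omega)]
      rw [h6]
      simp
  have g11 : c₁ * Real.log x ≤
      ∑ t ∈ Finset.range (x + Lf lam k x + v), wv A D W T (Lf lam k) v x t ω * dens μ ℱ A t ω := by
    refine le_trans ?_ g10
    calc c₁ * Real.log x = (1 - ε) * (w / (1 + ε) * (a * (1 - ε)) * Real.log x) := by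
          rw [hc₁]; ring
      _ ≤ _ := mul_le_mul_of_nonneg_left g8 (by linarith)
  obtain ⟨t, ht1, ht2⟩ := g2 g11
  have h7 : x + v ≤ t ∧ t < x + Lf lam k x + v := by
    by_contra hcon
    apply ht2
    unfold wv
    rw [if_neg hcon, zero_mul]
  have h8 : B A D W T (t + 1 - v) ω * J1 A (t + 1) ω ≠ 0 := by
    unfold wv at ht2
    rwa [if_pos h7] at ht2
  have h9 : t + 1 - v + v = t + 1 := by omega
  have e := B_insert (A := A) D W hvT (t + 1 - v) ω
  rw [hins, h9] at e
  rw [← e] at h8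
  refine ⟨t + 1 - v, by omega, by omega, fun d hd => ?_⟩
  by_contra hcon
  apply h8
  unfold B
  rw [Finset.prod_eq_zero hd, mul_zero]
  unfold J1
  exact indicator_of_notMem hcon _

end Pool.Agent.N730.KT
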