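import Mathlib
import Pool.Agent.N740.HK.Pat
import Pool.Agent.R528.RM.BHFinal

/-!
# Windows without k-tuples: one block, many blocks, one window
-/

set_option autoImplicit false
set_option linter.unusedSectionVars false

open MeasureTheory Filter Set
open scoped ENNReal Topology

namespace Pool.Agent.N730.KT

open Pool.Agent.R528.RM Pool.Agent.N740.HK

variable {Ω : Type} {m0 : MeasurableSpace Ω} {μ : Measure Ω} [IsProbabilityMeasure μ]
  {ℱ : Filtration ℕ m0} {A : ℕ → Set Ω}

/-- the conditional probability that all members of `S` are chosen, from above -/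
theorem tup_le (hA : ∀ n, MeasurableSet[ℱ n] (A n)) {V : ℕ → Set Ω}
    (hV : ∀ n, MeasurableSet[ℱ n] (V n)) {u : ℝ} (hu : 0 ≤ u) {t j : ℕ}
    (hub : ∀ n, t ≤ n → n < t + j → ∀ ω, ω ∉ V n → dens μ ℱ A n ω ≤ u)
    {C : Set Ω} (hC : MeasurableSet[ℱ t] C) (S : Finset ℕ) :
    (∀ v ∈ S, t < v) → ∀ e, e ≤ j → (∀ v ∈ S, v ≤ t + e) →
      μ.real ((C ∩ AT A S) \ WV V t e) ≤ u ^ S.card * μ.real C := by
  classical
  induction S using Finset.induction_on_max with
  | empty =>
    intro _ e _ _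
    rw [Finset.card_empty, pow_zero, one_mul]
    exact measureReal_mono (sdiff_subset.trans inter_subset_left)
  | insert v S hv ih =>
    intro hN e hej he
    have hvN : t < v := hN v (Finset.mem_insert_self v S)
    have hve : v ≤ t + e := he v (Finset.mem_insert_self v S)
    have hvS : v ∉ S := fun h => lt_irrefl _ (hv v h)
    rw [Finset.card_insert_of_notMem hvS]
    set B0 : Set Ω := (C ∩ AT A S) \ WV V t (v - 1 - t) with hB0
    have m1 : MeasurableSet[ℱ (v - 1)] C := ℱ.mono (by omega) _ hC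
    have m2 : MeasurableSet[ℱ (v - 1)] (AT A S) := AT_meas hA S _ fun w hw => by
      have := hv w hw
      omega
    have m3 : MeasurableSet[ℱ (v - 1)] (WV V t (v - 1 - t)) := by
      have h1 := WV_meas hV t (v - 1 - t)
      rwa [show t + (v - 1 - t) = v - 1 by omega] at h1
    have hB : MeasurableSet[ℱ (v - 1)] (B0 \ V (v - 1)) :=
      @MeasurableSet.diff _ (ℱ (v - 1)) _ _ (@MeasurableSet.diff _ (ℱ (v - 1)) _ _
        (@MeasurableSet.inter _ (ℱ (v - 1)) _ _ m1 m2) m3) (hV _)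
    have h1 := upper_meas (μ := μ) hA (v - 1) hB (u := u) (fun ω hω =>
      hub (v - 1) (by omega) (by omega) ω hω.2)
    have e1 : v - 1 + 1 = v := by omega
    rw [e1] at h1
    have h2 : (C ∩ AT A (insert v S)) \ WV V t e ⊆ (B0 \ V (v - 1)) ∩ A v := by
      rintro ω ⟨⟨h3, h4⟩, h5⟩
      refine ⟨⟨⟨⟨h3, fun w hw => h4 w (Finset.mem_insert_of_mem hw)⟩, ?_⟩, ?_⟩,
        h4 v (Finset.mem_insert_self v S)⟩
      · rintro ⟨n, hn1, hn2, hn3⟩
        exact h5 ⟨n, hn1, by omega, hn3⟩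
      · intro h6
        exact h5 ⟨v - 1, by omega, by omega, h6⟩
    have h3 := ih (fun w hw => hN w (Finset.mem_insert_of_mem hw)) (v - 1 - t) (by omega)
      (fun w hw => by
        have := hv w hw
        omega)
    calc μ.real ((C ∩ AT A (insert v S)) \ WV V t e) ≤ μ.real ((B0 \ V (v - 1)) ∩ A v) :=
          measureReal_mono h2 (measure_ne_top _ _)
      _ ≤ u * μ.real (B0 \ V (v - 1)) := h1
      _ ≤ u * μ.real B0 := mul_le_mul_of_nonneg_left (measureReal_mono sdiff_subset) hu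
      _ ≤ u * (u ^ S.card * μ.real C) := mul_le_mul_of_nonneg_left h3 hu
      _ = _ := by ring

/-- in the block `(t, t + M]`: no `s + D` inside the block is chosen, and the last `h` integers are not
chosen -/
def Gb (A : ℕ → Set Ω) (D : Finset ℕ) (h M t : ℕ) : Set Ω :=
  {ω | (∀ s, t < s → s + h ≤ t + M → ¬ ∀ d ∈ D, ω ∈ A (s + d)) ∧
    ∀ r, t + M - h < r → r ≤ t + M → ω ∉ A r}

lemma Gb_meas (hA : ∀ n, MeasurableSet[ℱ n] (A n)) {D : Finset ℕ} {h M : ℕ} (hD : ∀ d ∈ D, d ≤ h)
    (t : ℕ) : MeasurableSet[ℱ (t + M)] (Gb A D h M t) := by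
  have e : Gb A D h M t =
      (⋂ s ∈ (Finset.Ioc t (t + M)).filter (fun s => s + h ≤ t + M), (AT A (D.image (s + ·)))ᶜ) ∩
      ⋂ r ∈ Finset.Ioc (t + M - h) (t + M), (A r)ᶜ := by
    ext ω
    simp only [Gb, AT, mem_ofPred_eq, mem_inter_iff, mem_iInter, Finset.mem_filter, Finset.mem_Ioc,
      mem_compl_iff, Finset.mem_image, forall_exists_index, and_imp, forall_apply_eq_imp_iff₂]
    constructor
    · rintro ⟨h1, h2⟩
      exact ⟨fun s hs1 hs2 hs3 => h1 s hs1 hs3, h2⟩
    · rintro ⟨h1, h2⟩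
      exact ⟨fun s hs1 hs2 => h1 s hs1 (by omega) hs2, h2⟩
  rw [e]
  refine @MeasurableSet.inter _ (ℱ (t + M)) _ _ ?_ ?_
  · refine Finset.measurableSet_biInter _ fun s hs => ?_
    rw [Finset.mem_filter, Finset.mem_Ioc] at hs
    refine @MeasurableSet.compl _ _ (ℱ (t + M)) (AT_meas hA _ _ fun v hv => ?_)
    rw [Finset.mem_image] at hv
    obtain ⟨d, hd, rfl⟩ := hv
    have := hD d hd
    omega
  · refine Finset.measurableSet_biInter _ fun r hr => ?_
    rw [Finset.mem_Ioc] at hr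
    exact @MeasurableSet.compl _ _ (ℱ (t + M)) (ℱ.mono hr.2 _ (hA r))

/-- one block -/
theorem block_ge (hA : ∀ n, MeasurableSet[ℱ n] (A n)) {V : ℕ → Set Ω}
    (hV : ∀ n, MeasurableSet[ℱ n] (V n)) {u : ℝ} (hu : 0 ≤ u) {t M h : ℕ} {D : Finset ℕ}
    (hD : ∀ d ∈ D, d ≤ h) (hM : h ≤ M)
    (hub : ∀ n, t ≤ n → n < t + M → ∀ ω, ω ∉ V n → dens μ ℱ A n ω ≤ u)
    (g : ℕ → Prop) [DecidablePred g] (hg : ∀ s, ¬ g s → ∃ d ∈ D, A (s + d) = ∅) {Nb : ℝ}
    (hNb : (((Finset.Ioc t (t + M)).filter g).card : ℝ) ≤ Nb)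
    {C : Set Ω} (hC : MeasurableSet[ℱ t] C) :
    (1 - (Nb * u ^ D.card + h * u)) * μ.real C ≤ μ.real (C ∩ (Gb A D h M t ∪ WV V t M)) := by
  classical
  set E : Set Ω := Gb A D h M t ∪ WV V t M with hE
  have hEm : MeasurableSet E := ℱ.le (t + M) _ (@MeasurableSet.union _ (ℱ (t + M)) _ _
    (Gb_meas hA hD t) (WV_meas hV t M))
  have h0 := measureReal_inter_add_sdiff (μ := μ) (s := C) hEm
  set S1 := ((Finset.Ioc t (t + M)).filter g).filter (fun s => s + h ≤ t + M) with hS1
  set S2 := Finset.Ioc (t + M - h) (t + M) with hS2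
  have hsub : C \ E ⊆ (⋃ s ∈ S1, (C ∩ AT A (D.image (s + ·))) \ WV V t M) ∪
      ⋃ r ∈ S2, (C ∩ AT A {r}) \ WV V t M := by
    rintro ω ⟨h1, h2⟩
    rw [hE, mem_union, not_or] at h2
    obtain ⟨h2, h3⟩ := h2
    simp only [Gb, mem_ofPred_eq, not_and_or] at h2
    push Not at h2
    rcases h2 with ⟨s, hs1, hs2, hs3⟩ | ⟨r, hr1, hr2, hr3⟩
    · left
      rw [mem_iUnion₂]
      refine ⟨s, ?_, ⟨h1, ?_⟩, h3⟩
      · rw [hS1, Finset.mem_filter, Finset.mem_filter, Finset.mem_Ioc]
        refine ⟨⟨⟨hs1, by omega⟩, ?_⟩, hs2⟩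
        by_contra hgs
        obtain ⟨d, hd, hAd⟩ := hg s hgs
        have := hs3 d hd
        rw [hAd] at this
        exact this
      · intro v hv
        rw [Finset.mem_image] at hv
        obtain ⟨d, hd, rfl⟩ := hv
        exact hs3 d hd
    · right
      rw [mem_iUnion₂]
      refine ⟨r, ?_, ⟨h1, ?_⟩, h3⟩
      · rw [hS2, Finset.mem_Ioc]
        exact ⟨hr1, hr2⟩
      · intro v hv
        rw [Finset.mem_singleton] at hv
        rw [hv]
        exact hr3
  have h4 : μ.real (C \ E) ≤ Nb * u ^ D.card * μ.real C + h * u * μ.real C := by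
    refine (measureReal_mono hsub (measure_ne_top _ _)).trans ((measureReal_union_le _ _).trans ?_)
    refine add_le_add ?_ ?_
    · refine (measureReal_biUnion_finset_le _ _).trans ?_
      calc ∑ s ∈ S1, μ.real ((C ∩ AT A (D.image (s + ·))) \ WV V t M)
          ≤ ∑ s ∈ S1, u ^ D.card * μ.real C := by
            refine Finset.sum_le_sum fun s hs => ?_
            rw [hS1, Finset.mem_filter, Finset.mem_filter, Finset.mem_Ioc] at hs
            have h5 := tup_le (μ := μ) hA hV hu (t := t) (j := M) hub hC (D.image (s + ·))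
              (fun v hv => by
                rw [Finset.mem_image] at hv
                obtain ⟨d, _, rfl⟩ := hv
                omega) M le_rfl (fun v hv => by
                rw [Finset.mem_image] at hv
                obtain ⟨d, hd, rfl⟩ := hv
                have := hD d hd
                omega)
            rwa [Finset.card_image_of_injective _ (add_right_injective s)] at h5
        _ = (S1.card : ℝ) * (u ^ D.card * μ.real C) := by rw [Finset.sum_const, nsmul_eq_mul]
        _ ≤ Nb * (u ^ D.card * μ.real C) := by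
            refine mul_le_mul_of_nonneg_right (le_trans ?_ hNb)
              (mul_nonneg (pow_nonneg hu _) measureReal_nonneg)
            exact_mod_cast Finset.card_le_card (Finset.filter_subset _ _)
        _ = _ := by ring
    · refine (measureReal_biUnion_finset_le _ _).trans ?_
      calc ∑ r ∈ S2, μ.real ((C ∩ AT A {r}) \ WV V t M) ≤ ∑ r ∈ S2, u * μ.real C := by
            refine Finset.sum_le_sum fun r hr => ?_
            rw [hS2, Finset.mem_Ioc] at hr
            have h5 := tup_le (μ := μ) hA hV hu (t := t) (j := M) hub hC {r}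
              (fun v hv => by
                rw [Finset.mem_singleton] at hv
                omega) M le_rfl (fun v hv => by
                rw [Finset.mem_singleton] at hv
                omega)
            rwa [Finset.card_singleton, pow_one] at h5
        _ = (S2.card : ℝ) * (u * μ.real C) := by rw [Finset.sum_const, nsmul_eq_mul]
        _ = h * u * μ.real C := by
            rw [hS2, Nat.card_Ioc, show t + M - (t + M - h) = h by omega]
            ring
  linarith

/-- many blocks -/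
def Eb (A V : ℕ → Set Ω) (D : Finset ℕ) (h M t : ℕ) : ℕ → Set Ω
  | 0 => univ
  | m + 1 => Eb A V D h M t m ∩ (Gb A D h M (t + M * m) ∪ WV V (t + M * m) M)

lemma Eb_meas (hA : ∀ n, MeasurableSet[ℱ n] (A n)) {V : ℕ → Set Ω}
    (hV : ∀ n, MeasurableSet[ℱ n] (V n)) {D : Finset ℕ} {h M : ℕ} (hD : ∀ d ∈ D, d ≤ h)
    (t m : ℕ) : MeasurableSet[ℱ (t + M * m)] (Eb A V D h M t m) := by
  induction m with
  | zero => exact MeasurableSet.univ
  | succ m ih =>
    have h1 : MeasurableSet[ℱ (t + M * (m + 1))] (Eb A V D h M t m) :=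
      ℱ.mono (by rw [Nat.mul_succ]; omega) _ ih
    have e : t + M * m + M = t + M * (m + 1) := by ring
    have h2 := Gb_meas (M := M) hA hD (t + M * m)
    have h3 := WV_meas hV (t + M * m) M
    rw [e] at h2 h3
    exact @MeasurableSet.inter _ (ℱ (t + M * (m + 1))) _ _ h1
      (@MeasurableSet.union _ (ℱ (t + M * (m + 1))) _ _ h2 h3)

theorem blocks_ge (hA : ∀ n, MeasurableSet[ℱ n] (A n)) {V : ℕ → Set Ω}
    (hV : ∀ n, MeasurableSet[ℱ n] (V n)) {u : ℝ} (hu : 0 ≤ u) {t M h : ℕ} {D : Finset ℕ}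
    (hD : ∀ d ∈ D, d ≤ h) (hM : h ≤ M)
    (g : ℕ → Prop) [DecidablePred g] (hg : ∀ s, ¬ g s → ∃ d ∈ D, A (s + d) = ∅) {Nb : ℝ}
    (hNb : ∀ t', (((Finset.Ioc t' (t' + M)).filter g).card : ℝ) ≤ Nb)
    (hq : Nb * u ^ D.card + h * u ≤ 1) {C : Set Ω} (hC : MeasurableSet[ℱ t] C) (m : ℕ)
    (hub : ∀ n, t ≤ n → n < t + M * m → ∀ ω, ω ∉ V n → dens μ ℱ A n ω ≤ u) :
    (1 - (Nb * u ^ D.card + h * u)) ^ m * μ.real C ≤ μ.real (C ∩ Eb A V D h M t m) := by
  induction m with
  | zero => simp [Eb]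
  | succ m ih =>
    have ih := ih fun n hn1 hn2 => hub n hn1 (by rw [Nat.mul_succ]; omega)
    have hC' : MeasurableSet[ℱ (t + M * m)] (C ∩ Eb A V D h M t m) :=
      @MeasurableSet.inter _ (ℱ (t + M * m)) _ _ (ℱ.mono (by omega) _ hC) (Eb_meas hA hV hD t m)
    have h1 := block_ge (μ := μ) hA hV hu (t := t + M * m) (M := M) hD hM
      (fun n hn1 hn2 => hub n (by omega) (by rw [Nat.mul_succ]; omega)) g hg (hNb _) hC'
    have e : (C ∩ Eb A V D h M t m) ∩ (Gb A D h M (t + M * m) ∪ WV V (t + M * m) M) =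
        C ∩ Eb A V D h M t (m + 1) := by
      rw [inter_assoc]; rfl
    rw [e] at h1
    refine le_trans ?_ h1
    rw [pow_succ]
    have h2 : 0 ≤ 1 - (Nb * u ^ D.card + h * u) := by linarith
    calc (1 - (Nb * u ^ D.card + h * u)) ^ m * (1 - (Nb * u ^ D.card + h * u)) * μ.real C
        = (1 - (Nb * u ^ D.card + h * u)) * ((1 - (Nb * u ^ D.card + h * u)) ^ m * μ.real C) := by
          ring
      _ ≤ _ := mul_le_mul_of_nonneg_left ih h2

/-- many blocks without patterns: a window without patterns -/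
lemma Eb_out {V : ℕ → Set Ω} {D : Finset ℕ} {h M t m : ℕ} (h0 : 0 ∈ D) {ω : Ω}
    (hω : ω ∈ Eb A V D h M t m) (hV : ∀ n, t ≤ n → ω ∉ V n) :
    ∀ s, t < s → s ≤ t + M * m → ¬ ∀ d ∈ D, ω ∈ A (s + d) := by
  induction m with
  | zero => intro s hs1 hs2; omega
  | succ m ih =>
    intro s hs1 hs2 hs3
    have hω' : ω ∈ Eb A V D h M t m ∩ (Gb A D h M (t + M * m) ∪ WV V (t + M * m) M) := hω
    by_cases hs : s ≤ t + M * m
    · exact ih hω'.1 s hs1 hs hs3
    · rcases hω'.2 with h1 | ⟨n, hn1, hn2, hn3⟩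
      · rw [Nat.mul_succ] at hs2
        by_cases hs4 : s + h ≤ t + M * m + M
        · exact h1.1 s (by omega) hs4 hs3
        · have := hs3 0 h0
          rw [add_zero] at this
          exact h1.2 s (by omega) (by omega) this
      · exact hV n (by omega) hn3

end Pool.Agent.N730.KT
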