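import Mathlib
import Pool.Agent.N730.KT.Low
import Pool.Agent.N730.KT.Asy
import Pool.Agent.N730.KT.Chain

/-!
# Large gaps between tuples; the limit superior
-/

set_option autoImplicit false
set_option linter.unusedSectionVars false

open MeasureTheory Filter Set
open scoped ENNReal Topology

namespace Pool.Agent.N730.KT

open Pool.Agent.R528.RM Pool.Agent.N740.HK

variable {Ω : Type} {m0 : MeasurableSpace Ω} {μ : Measure Ω} [IsProbabilityMeasure μ]
  {ℱ : Filtration ℕ m0} {A : ℕ → Set Ω}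

/-- the conditional probability is larger than it should be -/
def VU (μ : Measure Ω) (ℱ : Filtration ℕ m0) (A : ℕ → Set Ω) (W : ℕ) (δ : ℝ) (n : ℕ) : Set Ω :=
  {ω | ¬ dens μ ℱ A n ω ≤ (1 + δ) * rhoW W (n + 1)}

lemma VU_meas (W : ℕ) (δ : ℝ) (n : ℕ) : MeasurableSet[ℱ n] (VU μ ℱ A W δ n) := by
  have h2 : MeasurableSet {x : ℝ | ¬ x ≤ (1 + δ) * rhoW W (n + 1)} := measurableSet_Iic.compl
  exact (dens_meas n).measurable h2

/-- **windows without tuples** -/
theorem lower (hA : ∀ n, MeasurableSet[ℱ n] (A n)) {W : ℕ} (hW : 0 < W)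
    (hcop : ∀ n, ¬ Nat.Coprime n W → A n = ∅)
    (hd : ∀ᵐ ω ∂μ, ∀ ε : ℝ, 0 < ε → ∀ᶠ n : ℕ in atTop,
      |dens μ ℱ A n ω - rhoW W (n + 1)| ≤ ε * rhoW W (n + 1))
    {D : Finset ℕ} (h0 : 0 ∈ D) {κ : ℝ} (hκ : 0 < κ)
    (hS : κ * ((nu D W : ℝ) / W * ((W : ℝ) / Nat.totient W) ^ D.card) < 1) :
    ∀ᵐ ω ∂μ, ∀ K : ℕ, ∃ x H : ℕ, K ≤ x ∧ κ * Real.log x ^ (D.card + 1) ≤ H ∧
      ∀ s, x < s → s ≤ x + H → ¬ ∀ d ∈ D, ω ∈ A (s + d) := by
  classical
  have hk : 1 ≤ D.card := Finset.card_pos.2 ⟨0, h0⟩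
  have hW' : (0 : ℝ) < W := by exact_mod_cast hW
  set w : ℝ := (W : ℝ) / Nat.totient W with hw
  have hw0 : 0 < w := div_pos hW' (by exact_mod_cast Nat.totient_pos.2 hW)
  set k := D.card with hkdef
  set h := D.sup id with hh
  have hDh : ∀ d ∈ D, d ≤ h := fun d hd => Finset.le_sup (f := id) hd
  -- choose `δ`
  obtain ⟨δ, hδ0, hδ⟩ : ∃ δ : ℝ, 0 < δ ∧ κ * ((nu D W : ℝ) / W * ((1 + δ) * w) ^ k) < 1 := by
    have hcont : Tendsto (fun δ : ℝ => κ * ((nu D W : ℝ) / W * ((1 + δ) * w) ^ k)) (𝓝[>] 0)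
        (𝓝 (κ * ((nu D W : ℝ) / W * ((1 + 0) * w) ^ k))) := by
      apply Tendsto.mono_left _ nhdsWithin_le_nhds
      apply ContinuousAt.tendsto
      fun_prop
    rw [add_zero, one_mul] at hcont
    have h3 := hcont.eventually (gt_mem_nhds hS)
    have h4 : ∀ᶠ ε : ℝ in 𝓝[>] 0, ε ∈ Ioi (0 : ℝ) := self_mem_nhdsWithin
    obtain ⟨δ, hd1, hd2⟩ := (h3.and h4).exists
    exact ⟨δ, hd2, hd1⟩
  set a : ℝ := (1 + δ) * w with ha
  have ha0 : 0 < a := by positivity
  set ν := nu D W with hν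
  have hth0 := th_zero (a := a) hW' ν k h hk
  obtain ⟨i₀, hi₀⟩ := eventually_atTop.1 ((hth0.eventually (gt_mem_nhds one_pos)).and
    (eventually_ge_atTop 1))
  set V : ℕ → Set Ω := VU μ ℱ A W δ with hV
  have hVm : ∀ n, MeasurableSet[ℱ n] (V n) := fun n => VU_meas W δ n
  have hyy : ∀ i, 1 ≤ i → 0 < yy i := fun i hi =>
    mul_pos (by exact_mod_cast hi) log2_pos
  have hub : ∀ i, 1 ≤ i → ∀ n, 2 ^ i ≤ n → ∀ ω, ω ∉ V n → dens μ ℱ A n ω ≤ uu a i := by
    intro i hi n hn ω hω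
    simp only [hV, VU, mem_ofPred_eq, not_not] at hω
    refine hω.trans ?_
    have h5 : yy i ≤ Real.log ((n + 1 : ℕ) : ℝ) := by
      have h6 : ((2 : ℝ) ^ i) ≤ ((n + 1 : ℕ) : ℝ) := by exact_mod_cast (by omega : 2 ^ i ≤ n + 1)
      have h7 := Real.log_le_log (by positivity) h6
      rwa [Real.log_pow] at h7
    have h8 := hyy i hi
    unfold rhoW uu
    split_ifs
    · calc (1 + δ) * min 1 (w / Real.log ((n + 1 : ℕ) : ℝ))
          ≤ (1 + δ) * (w / Real.log ((n + 1 : ℕ) : ℝ)) :=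
            mul_le_mul_of_nonneg_left (min_le_right _ _) (by positivity)
        _ ≤ (1 + δ) * (w / yy i) := mul_le_mul_of_nonneg_left
            (div_le_div_of_nonneg_left hw0.le h8 h5) (by positivity)
        _ = a / yy i := by rw [ha]; ring
    · rw [mul_zero]
      positivity
  set Df : ℕ → ℕ → ℕ → Set Ω := fun i _ m =>
    Eb A V D h (Mb k h i) (2 ^ i + (Mb k h i * nb κ k h i) * m) (nb κ k h i) with hDf
  have hmain := ev_blocks (μ := μ) (ℱ := ℱ) (D := Df) (H := fun i => Mb k h i * nb κ k h i)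
    (M := fun i => 2 ^ i / (Mb k h i * nb κ k h i)) (N := fun _ => 1) (i₀ := i₀)
    (by
      intro i _ g _ m _
      have h1 := Eb_meas (M := Mb k h i) hA hVm hDh (2 ^ i + (Mb k h i * nb κ k h i) * m) (nb κ k h i)
      have e : 2 ^ i + Mb k h i * nb κ k h i * m + Mb k h i * nb κ k h i =
          2 ^ i + Mb k h i * nb κ k h i * (m + 1) := by ring
      rw [e] at h1
      exact h1)
    (fun i => (1 - th a W ν k h i) ^ nb κ k h i)
    (by
      intro i hi g _ m _ C hC
      obtain ⟨g1, g2⟩ := hi₀ i hi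
      exact blocks_ge (μ := μ) hA hVm (u := uu a i) (by
          have := hyy i g2
          unfold uu
          positivity) (M := Mb k h i) hDh (by unfold Mb; omega)
        (cop D W) (fun s hs => by
          unfold cop at hs
          push Not at hs
          obtain ⟨d, hd, hd'⟩ := hs
          exact ⟨d, hd, hcop _ hd'⟩) (Nb := ν * (Mb k h i / (W : ℝ) + 1))
        (fun t' => by
          have e : Finset.Ioc t' (t' + Mb k h i) = Finset.Ico (t' + 1) (t' + 1 + Mb k h i) := by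
            ext x
            simp only [Finset.mem_Ioc, Finset.mem_Ico]
            omega
          rw [e]
          have h1 : (((Finset.Ico (t' + 1) (t' + 1 + Mb k h i)).filter (cop D W)).card : ℝ) ≤
              ((nu D W * (Mb k h i / W + 1) : ℕ) : ℝ) := by
            exact_mod_cast cnt_up D hW (t' + 1) (Mb k h i)
          refine h1.trans ?_
          push_cast
          refine mul_le_mul_of_nonneg_left ?_ (Nat.cast_nonneg _)
          have : ((Mb k h i / W : ℕ) : ℝ) ≤ (Mb k h i : ℝ) / W := Nat.cast_div_le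
          linarith)
        (by
          have : th a W ν k h i < 1 := g1
          unfold th at this
          exact this.le) hC (nb κ k h i)
        (fun n hn1 _ ω hω => hub i g2 n (by
          have : 2 ^ i ≤ 2 ^ i + Mb k h i * nb κ k h i * m := Nat.le_add_right _ _
          omega) ω hω))
    (summ hW' hκ ν k h hk hδ)
  filter_upwards [hmain, hd] with ω h1 h2 K
  obtain ⟨n₀, hn₀⟩ := eventually_atTop.1 (h2 δ hδ0)
  have hVn : ∀ n, n₀ ≤ n → ω ∉ V n := by
    intro n hn
    simp only [hV, VU, mem_ofPred_eq, not_not]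
    have := (abs_le.1 (hn₀ n hn)).2
    linarith
  obtain ⟨i, g1, g2, g3⟩ := (h1.and ((eventually_ge_atTop (max K n₀)).and (eventually_ge_atTop 1))).exists
  obtain ⟨m, hm, hmD⟩ := g1 0 one_pos
  have hM : 0 < Mb k h i := Mb_pos k h i g3
  have hi2 : i < 2 ^ i := Nat.lt_two_pow_self
  have hKi : K ≤ i := (le_max_left _ _).trans g2
  have hni : n₀ ≤ i := (le_max_right _ _).trans g2
  set H := Mb k h i * nb κ k h i with hH
  have hxle : 2 ^ i ≤ 2 ^ i + H * m := Nat.le_add_right _ _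
  refine ⟨2 ^ i + H * m, H, by omega, ?_, ?_⟩
  · have h5 : κ * yy (i + 1) ^ (k + 1) ≤ (H : ℕ) := by
      have h6 : κ * yy (i + 1) ^ (k + 1) / Mb k h i ≤ nb κ k h i := Nat.le_ceil _
      rw [div_le_iff₀ (by exact_mod_cast hM)] at h6
      rw [hH]
      push_cast
      linarith
    refine le_trans (mul_le_mul_of_nonneg_left ?_ hκ.le) h5
    have h7 : 2 ^ i + H * m ≤ 2 ^ (i + 1) := by
      have h8 : H * m ≤ H * (2 ^ i / H) := Nat.mul_le_mul_left _ hm.le
      have h9 := Nat.mul_div_le (2 ^ i) H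
      rw [pow_succ]
      omega
    have h8 : Real.log ((2 ^ i + H * m : ℕ) : ℝ) ≤ yy (i + 1) := by
      have h9 : ((2 ^ i + H * m : ℕ) : ℝ) ≤ 2 ^ (i + 1) := by exact_mod_cast h7
      have h10 := Real.log_le_log (by exact_mod_cast (by omega : 0 < 2 ^ i + H * m)) h9
      rw [Real.log_pow] at h10
      exact h10
    exact pow_le_pow_left₀ (Real.log_natCast_nonneg _) h8 _
  · exact Eb_out h0 hmD fun n hn => hVn n (by omega)

/-- the base points of the tuples -/
def TS (A : ℕ → Set Ω) (D : Finset ℕ) (ω : Ω) : Set ℕ := {s | ∀ d ∈ D, ω ∈ A (s + d)}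

/-- **the limit superior of the gaps between tuples** -/
theorem gaps (hA : ∀ n, MeasurableSet[ℱ n] (A n)) {W : ℕ} (hW : 0 < W)
    (hcop : ∀ n, ¬ Nat.Coprime n W → A n = ∅)
    (hd : ∀ᵐ ω ∂μ, ∀ ε : ℝ, 0 < ε → ∀ᶠ n : ℕ in atTop,
      |dens μ ℱ A n ω - rhoW W (n + 1)| ≤ ε * rhoW W (n + 1)) :
    ∀ᵐ ω ∂μ, ∀ D : Finset ℕ, 0 ∈ D → ∀ S : ℝ, S = (nu D W : ℝ) / W * ((W : ℝ) / Nat.totient W) ^ D.card →
      0 < S → (TS A D ω).Infinite ∧ ∀ ε : ℝ, 0 < ε →
        (∀ᶠ n : ℕ in atTop, ((pn (TS A D ω) (n + 1) : ℕ) : ℝ) - pn (TS A D ω) n ≤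
          (1 / S + ε) * Real.log (pn (TS A D ω) n) ^ (D.card + 1)) ∧
        (∃ᶠ n : ℕ in atTop, (1 / S - ε) * Real.log (pn (TS A D ω) n) ^ (D.card + 1) ≤
          ((pn (TS A D ω) (n + 1) : ℕ) : ℝ) - pn (TS A D ω) n) := by
  classical
  have hup : ∀ (D : Finset ℕ) (m : ℕ), ∀ᵐ ω ∂μ, 0 ∈ D →
      0 < (nu D W : ℝ) / W * ((W : ℝ) / Nat.totient W) ^ D.card →
      ∀ᶠ x : ℕ in atTop, ∃ s : ℕ, x < s ∧
        s ≤ x + Lf (1 / ((nu D W : ℝ) / W * ((W : ℝ) / Nat.totient W) ^ D.card) + 1 / ((m : ℝ) + 1))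
          D.card x ∧ ∀ d ∈ D, ω ∈ A (s + d) := by
    intro D m
    by_cases h0 : 0 ∈ D ∧ 0 < (nu D W : ℝ) / W * ((W : ℝ) / Nat.totient W) ^ D.card
    · obtain ⟨h0, hS⟩ := h0
      set S := (nu D W : ℝ) / W * ((W : ℝ) / Nat.totient W) ^ D.card with hSdef
      have hm : 0 < 1 / ((m : ℝ) + 1) := by positivity
      have := upper (μ := μ) hA hW hd ⟨0, h0⟩ (lam := 1 / S + 1 / ((m : ℝ) + 1)) (by positivity) (by
        rw [← hSdef, add_mul, one_div_mul_cancel hS.ne']
        have := mul_pos hm hS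
        linarith)
      filter_upwards [this] with ω hω _ _
      exact hω
    · refine Eventually.of_forall fun ω h1 h2 => absurd ⟨h1, h2⟩ h0
  have hlo : ∀ (D : Finset ℕ) (m : ℕ), ∀ᵐ ω ∂μ, 0 ∈ D →
      0 < 1 / ((nu D W : ℝ) / W * ((W : ℝ) / Nat.totient W) ^ D.card) - 1 / ((m : ℝ) + 1) →
      ∀ K : ℕ, ∃ x H : ℕ, K ≤ x ∧
        (1 / ((nu D W : ℝ) / W * ((W : ℝ) / Nat.totient W) ^ D.card) - 1 / ((m : ℝ) + 1)) *
          Real.log x ^ (D.card + 1) ≤ H ∧
        ∀ s, x < s → s ≤ x + H → ¬ ∀ d ∈ D, ω ∈ A (s + d) := by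
    intro D m
    by_cases h0 : 0 ∈ D ∧
        0 < 1 / ((nu D W : ℝ) / W * ((W : ℝ) / Nat.totient W) ^ D.card) - 1 / ((m : ℝ) + 1)
    · obtain ⟨h0, hκ⟩ := h0
      set S := (nu D W : ℝ) / W * ((W : ℝ) / Nat.totient W) ^ D.card with hSdef
      have hm : 0 < 1 / ((m : ℝ) + 1) := by positivity
      have hS0 : 0 ≤ S := by positivity
      have hS : 0 < S := by
        rcases hS0.lt_or_eq with h | h
        · exact h
        · rw [← h, div_zero] at hκ
          linarith
      have := lower (μ := μ) hA hW hcop hd h0 (κ := 1 / S - 1 / ((m : ℝ) + 1)) hκ (by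
        rw [← hSdef, sub_mul, one_div_mul_cancel hS.ne']
        have := mul_pos hm hS
        linarith)
      filter_upwards [this] with ω hω _ _
      exact hω
    · refine Eventually.of_forall fun ω h1 h2 => absurd ⟨h1, h2⟩ h0
  filter_upwards [ae_all_iff.2 fun D => ae_all_iff.2 (hup D), ae_all_iff.2 fun D => ae_all_iff.2 (hlo D)]
    with ω h1 h2 D h0 S hSeq hS
  have h1 := fun m => h1 D m h0 (hSeq ▸ hS)
  have h2 := fun m => h2 D m h0
  rw [← hSeq] at h1 h2
  set X := TS A D ω with hX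
  set k := D.card with hk
  have hinf : X.Infinite := by
    apply infinite_of
    intro K
    obtain ⟨x, hx1, hx2⟩ := ((h1 0).and (eventually_ge_atTop K)).exists
    obtain ⟨s, hs1, _, hs3⟩ := hx1
    exact ⟨s, by omega, hs3⟩
  refine ⟨hinf, fun ε hε => ⟨?_, ?_⟩⟩
  · obtain ⟨m, hm⟩ := exists_nat_one_div_lt hε
    filter_upwards [(tendsto_nth hinf).eventually (h1 m)] with n hn
    obtain ⟨s, hs1, hs2, hs3⟩ := hn
    obtain ⟨j, hj⟩ := exists_nth (S := X) (k := s) hs3
    have h3 : n < j := by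
      rw [← (nth_mono hinf).lt_iff_lt, hj]
      exact hs1
    have h4 : pn X (n + 1) ≤ s := by
      rw [← hj]
      exact (nth_mono hinf).monotone h3
    have h5 : ((pn X (n + 1) : ℕ) : ℝ) ≤ pn X n + Lf (1 / S + 1 / ((m : ℝ) + 1)) k (pn X n) := by
      exact_mod_cast h4.trans hs2
    have h6 : (Lf (1 / S + 1 / ((m : ℝ) + 1)) k (pn X n) : ℝ) ≤
        (1 / S + 1 / ((m : ℝ) + 1)) * Real.log (pn X n) ^ (k + 1) := by
      unfold Lf
      refine Nat.floor_le ?_
      have := Real.log_natCast_nonneg (pn X n)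
      positivity
    have h7 : (1 / S + 1 / ((m : ℝ) + 1)) * Real.log (pn X n) ^ (k + 1) ≤
        (1 / S + ε) * Real.log (pn X n) ^ (k + 1) := by
      refine mul_le_mul_of_nonneg_right (by linarith) ?_
      have := Real.log_natCast_nonneg (pn X n)
      positivity
    linarith
  · obtain ⟨m, hm⟩ := exists_nat_one_div_lt hε
    have hmain : ∃ᶠ n : ℕ in atTop, ∃ κ : ℝ, 1 / S - ε ≤ κ ∧
        κ * Real.log (pn X n) ^ (k + 1) ≤ ((pn X (n + 1) : ℕ) : ℝ) - pn X n := by
      rcases le_or_gt (1 / S - 1 / ((m : ℝ) + 1)) 0 with hneg | hpos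
      · refine Eventually.frequently (Eventually.of_forall fun n => ⟨0, by linarith, ?_⟩)
        rw [zero_mul, sub_nonneg]
        exact_mod_cast (nth_mono hinf (Nat.lt_succ_self n)).le
      · have h2 := h2 m hpos
        rw [frequently_atTop]
        intro N
        obtain ⟨x, H, hx1, hx2, hx3⟩ := h2 (pn X N + 1)
        -- the last member up to `x`
        have hex : ∃ n, N ≤ n ∧ pn X n ≤ x ∧ x < pn X (n + 1) := by
          have h3 : ∃ n, x < pn X n := by
            obtain ⟨n, hn⟩ := ((tendsto_nth hinf).eventually_gt_atTop x).exists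
            exact ⟨n, hn⟩
          have h4 := Nat.find_spec h3
          set j := Nat.find h3 with hj
          have h5 : N < j := by
            by_contra hcon
            have h6 := (nth_mono hinf).monotone (not_lt.1 hcon)
            omega
          refine ⟨j - 1, by omega, ?_, ?_⟩
          · have := Nat.find_min h3 (m := j - 1) (by omega)
            omega
          · rw [show j - 1 + 1 = j by omega]
            exact h4
        obtain ⟨n, hn1, hn2, hn3⟩ := hex
        refine ⟨n, hn1, 1 / S - 1 / ((m : ℝ) + 1), by linarith, ?_⟩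
        have h6 : x + H < pn X (n + 1) := by
          by_contra hcon
          exact hx3 _ hn3 (not_lt.1 hcon) (nth_mem hinf (n + 1))
        have h7 : ((x + H : ℕ) : ℝ) < pn X (n + 1) := by exact_mod_cast h6
        push_cast at h7
        have h8 : Real.log (pn X n) ^ (k + 1) ≤ Real.log x ^ (k + 1) := by
          refine pow_le_pow_left₀ (Real.log_natCast_nonneg _) ?_ _
          rcases Nat.eq_zero_or_pos (pn X n) with h | h
          · rw [h, Nat.cast_zero, Real.log_zero]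
            exact Real.log_natCast_nonneg x
          · exact Real.log_le_log (by exact_mod_cast h) (by exact_mod_cast hn2)
        have h9 := mul_le_mul_of_nonneg_left h8 hpos.le
        have h10 : (pn X n : ℝ) ≤ x := by exact_mod_cast hn2
        linarith
    refine hmain.mono fun n hn => ?_
    obtain ⟨κ, hκ1, hκ2⟩ := hn
    refine le_trans (mul_le_mul_of_nonneg_right hκ1 ?_) hκ2
    have := Real.log_natCast_nonneg (pn X n)
    positivity

end Pool.Agent.N730.KT
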